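import Pool.Agent.H770.GS.TF

/-!
# TF15: numerical bound of an integral
-/

set_option autoImplicit false

open MeasureTheory Set intervalIntegral Filter Topology

namespace Pool.Agent.H331.TF15

open Pool.Agent.H770.GS

/-! ## Taylor bounds -/

theorem nonneg_of_deriv {f f' : ℝ → ℝ} (h : ∀ x, HasDerivAt f (f' x) x)
    (h' : ∀ x, 0 ≤ x → 0 ≤ f' x) (h0 : 0 ≤ f 0) {x : ℝ} (hx : 0 ≤ x) : 0 ≤ f x := by
  have hm : MonotoneOn f (Ici 0) := by
    apply monotoneOn_of_deriv_nonneg (convex_Ici 0)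
    · exact fun y _ => (h y).continuousAt.continuousWithinAt
    · exact fun y _ => (h y).differentiableAt.differentiableWithinAt
    · intro y hy
      rw [interior_Ici] at hy
      rw [(h y).deriv]
      exact h' y (le_of_lt hy)
  exact h0.trans (hm self_mem_Ici hx hx)

theorem dpow (n : ℕ) (c x : ℝ) : HasDerivAt (fun y : ℝ => c * y ^ (n + 1)) (c * ((n + 1) * x ^ n)) x := by
  have h := (hasDerivAt_pow (n + 1) x).const_mul c
  refine h.congr_deriv ?_
  push_cast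
  simp

theorem dexp (x : ℝ) : HasDerivAt (fun y : ℝ => Real.exp (-y)) (-Real.exp (-x)) x := by
  have h := (hasDerivAt_neg x).exp
  refine h.congr_deriv ?_
  ring

theorem exp2 {y : ℝ} (hy : 0 ≤ y) : Real.exp (-y) ≤ 1 - y + y ^ 2 / 2 := by
  have h := nonneg_of_deriv (f := fun y => 1 - 1 * y ^ (0 + 1) + 1 / 2 * y ^ (1 + 1) - Real.exp (-y))
    (f' := fun y => 0 - 1 * (((0 : ℕ) + 1) * y ^ 0) + 1 / 2 * (((1 : ℕ) + 1) * y ^ 1) - -Real.exp (-y))
    (fun x => ((((hasDerivAt_const x (1 : ℝ)).sub (dpow 0 1 x)).add (dpow 1 (1 / 2) x)).sub (dexp x)))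
    (fun x _ => by
      have := Real.add_one_le_exp (-x)
      push_cast
      linarith) (by simp) hy
  simp only [zero_add, pow_one, Nat.reduceAdd] at h
  linarith

theorem exp3 {y : ℝ} (hy : 0 ≤ y) : 1 - y + y ^ 2 / 2 - y ^ 3 / 6 ≤ Real.exp (-y) := by
  have h := nonneg_of_deriv
    (f := fun y => Real.exp (-y) - (1 - 1 * y ^ (0 + 1) + 1 / 2 * y ^ (1 + 1) - 1 / 6 * y ^ (2 + 1)))
    (f' := fun y => -Real.exp (-y) - (0 - 1 * (((0 : ℕ) + 1) * y ^ 0) +
      1 / 2 * (((1 : ℕ) + 1) * y ^ 1) - 1 / 6 * (((2 : ℕ) + 1) * y ^ 2)))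
    (fun x => (dexp x).sub ((((hasDerivAt_const x (1 : ℝ)).sub (dpow 0 1 x)).add
      (dpow 1 (1 / 2) x)).sub (dpow 2 (1 / 6) x)))
    (fun x hx => by
      have := exp2 hx
      push_cast
      linarith) (by simp) hy
  simp only [zero_add, pow_one, Nat.reduceAdd] at h
  linarith

theorem exp4 {y : ℝ} (hy : 0 ≤ y) :
    Real.exp (-y) ≤ 1 - y + y ^ 2 / 2 - y ^ 3 / 6 + y ^ 4 / 24 := by
  have h := nonneg_of_deriv
    (f := fun y => (1 - 1 * y ^ (0 + 1) + 1 / 2 * y ^ (1 + 1) - 1 / 6 * y ^ (2 + 1) +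
      1 / 24 * y ^ (3 + 1)) - Real.exp (-y))
    (f' := fun y => (0 - 1 * (((0 : ℕ) + 1) * y ^ 0) +
      1 / 2 * (((1 : ℕ) + 1) * y ^ 1) - 1 / 6 * (((2 : ℕ) + 1) * y ^ 2) +
      1 / 24 * (((3 : ℕ) + 1) * y ^ 3)) - -Real.exp (-y))
    (fun x => (((((hasDerivAt_const x (1 : ℝ)).sub (dpow 0 1 x)).add
      (dpow 1 (1 / 2) x)).sub (dpow 2 (1 / 6) x)).add (dpow 3 (1 / 24) x)).sub (dexp x))
    (fun x hx => by
      have := exp3 hx
      push_cast
      linarith) (by simp) hy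
  simp only [zero_add, pow_one, Nat.reduceAdd] at h
  linarith

theorem cos2 {y : ℝ} (_ : 0 ≤ y) : 1 - y ^ 2 / 2 ≤ Real.cos y := Real.one_sub_sq_div_two_le_cos

theorem sin3 {y : ℝ} (hy : 0 ≤ y) : y - y ^ 3 / 6 ≤ Real.sin y := by
  have h := nonneg_of_deriv
    (f := fun y => Real.sin y - (1 * y ^ (0 + 1) - 1 / 6 * y ^ (2 + 1)))
    (f' := fun y => Real.cos y - (1 * (((0 : ℕ) + 1) * y ^ 0) - 1 / 6 * (((2 : ℕ) + 1) * y ^ 2)))
    (fun x => (Real.hasDerivAt_sin x).sub ((dpow 0 1 x).sub (dpow 2 (1 / 6) x)))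
    (fun x hx => by
      have := cos2 hx
      push_cast
      linarith) (by simp) hy
  simp only [zero_add, pow_one, Nat.reduceAdd] at h
  linarith

theorem cos4 {y : ℝ} (hy : 0 ≤ y) : Real.cos y ≤ 1 - y ^ 2 / 2 + y ^ 4 / 24 := by
  have h := nonneg_of_deriv
    (f := fun y => (1 - 1 / 2 * y ^ (1 + 1) + 1 / 24 * y ^ (3 + 1)) - Real.cos y)
    (f' := fun y => (0 - 1 / 2 * (((1 : ℕ) + 1) * y ^ 1) + 1 / 24 * (((3 : ℕ) + 1) * y ^ 3)) -
      -Real.sin y)
    (fun x => (((hasDerivAt_const x (1 : ℝ)).sub (dpow 1 (1 / 2) x)).add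
      (dpow 3 (1 / 24) x)).sub (Real.hasDerivAt_cos x))
    (fun x hx => by
      have := sin3 hx
      push_cast
      linarith) (by simp) hy
  simp only [Nat.reduceAdd] at h
  linarith

theorem sin5 {y : ℝ} (hy : 0 ≤ y) : Real.sin y ≤ y - y ^ 3 / 6 + y ^ 5 / 120 := by
  have h := nonneg_of_deriv
    (f := fun y => (1 * y ^ (0 + 1) - 1 / 6 * y ^ (2 + 1) + 1 / 120 * y ^ (4 + 1)) - Real.sin y)
    (f' := fun y => (1 * (((0 : ℕ) + 1) * y ^ 0) - 1 / 6 * (((2 : ℕ) + 1) * y ^ 2) +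
      1 / 120 * (((4 : ℕ) + 1) * y ^ 4)) - Real.cos y)
    (fun x => (((dpow 0 1 x).sub (dpow 2 (1 / 6) x)).add (dpow 4 (1 / 120) x)).sub
      (Real.hasDerivAt_sin x))
    (fun x hx => by
      have := cos4 hx
      push_cast
      linarith) (by simp) hy
  simp only [zero_add, pow_one, Nat.reduceAdd] at h
  linarith

/-! ## Polynomials given by coefficient lists -/

/-- value of the polynomial -/
def pe : List ℝ → ℝ → ℝ
  | [], _ => 0
  | c :: l, t => c + t * pe l t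

/-- the integral of `t^k p(t)` over `[0,T]`, divided by `T^(k+1)` -/
noncomputable def pI : ℕ → List ℝ → ℝ → ℝ
  | _, [], _ => 0
  | k, c :: l, T => c / (k + 1) + T * pI (k + 1) l T

theorem pe_cont : ∀ l : List ℝ, Continuous (pe l)
  | [] => continuous_const
  | _ :: l => continuous_const.add (continuous_id.mul (pe_cont l))

theorem int_pe : ∀ (l : List ℝ) (k : ℕ) (T : ℝ),
    ∫ t in (0 : ℝ)..T, t ^ k * pe l t = T ^ (k + 1) * pI k l T
  | [], k, T => by
    simp only [pe, pI, mul_zero]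
    exact intervalIntegral.integral_zero
  | c :: l, k, T => by
    have h1 : (fun t : ℝ => t ^ k * pe (c :: l) t) = fun t => c * t ^ k + t ^ (k + 1) * pe l t := by
      funext t
      rw [pe, pow_succ]
      ring
    have hc := pe_cont l
    rw [h1, intervalIntegral.integral_add (Continuous.intervalIntegrable (by fun_prop) _ _)
      (Continuous.intervalIntegrable (by fun_prop) _ _), int_pe l (k + 1) T,
      intervalIntegral.integral_const_mul, integral_pow, pI, zero_pow (Nat.succ_ne_zero k), sub_zero]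
    have : (k : ℝ) + 1 ≠ 0 := by positivity
    field_simp
    ring

theorem int_pe0 (l : List ℝ) (T : ℝ) : ∫ t in (0 : ℝ)..T, pe l t = T * pI 0 l T := by
  have h := int_pe l 0 T
  simpa using h

/-! ## The normalisation -/

theorem zt_up {ε : ℝ} (hε : 0 ≤ ε) : zt ε ≤ 1 - ε / 3 + ε ^ 2 / 10 := by
  have h1 : zt ε ≤ ∫ u in (0 : ℝ)..1, pe [1, 0, -ε, 0, ε ^ 2 / 2] u := by
    unfold zt
    refine intervalIntegral.integral_mono_on zero_le_one
      (Continuous.intervalIntegrable (by fun_prop) _ _) ((pe_cont _).intervalIntegrable _ _)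
      fun u _ => ?_
    have := exp2 (y := ε * u ^ 2) (by positivity)
    simp only [pe]
    linarith
  rw [int_pe0] at h1
  simp only [pI] at h1
  push_cast at h1
  linarith

theorem zt_lo {ε : ℝ} (hε : 0 ≤ ε) : 1 - ε / 3 + ε ^ 2 / 10 - ε ^ 3 / 42 ≤ zt ε := by
  have h1 : ∫ u in (0 : ℝ)..1, pe [1, 0, -ε, 0, ε ^ 2 / 2, 0, -(ε ^ 3 / 6)] u ≤ zt ε := by
    unfold zt
    refine intervalIntegral.integral_mono_on zero_le_one ((pe_cont _).intervalIntegrable _ _)
      (Continuous.intervalIntegrable (by fun_prop) _ _) fun u _ => ?_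
    have := exp3 (y := ε * u ^ 2) (by positivity)
    simp only [pe]
    linarith
  rw [int_pe0] at h1
  simp only [pI] at h1
  push_cast at h1
  linarith

/-! ## Certificates -/

theorem certA1 {t : ℝ} (h0 : 0 ≤ t) (h1 : t ≤ 927 / 1250) :
    0 ≤ (31416 / 10000 - t) * (3185 / 10000 + 1031 / 10000 * t - 275 / 10000 * t ^ 2) - (1 - t ^ 2 / 6 + t ^ 4 / 120) := by
  have key : ∀ x y : ℝ, 0 ≤ x → 0 ≤ y → 0 ≤
      (2927734375 / 1476892660482) * y ^ 4 +
      (62522155625 / 2953785320964) * x * y ^ 3 +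
      (19888313225 / 1969190213976) * x ^ 2 * y ^ 2 +
      (10105140925 / 5907570641928) * x ^ 3 * y +
      (72719098253 / 29537853209640) * x ^ 4 := by
    intro x y hx hy
    positivity
  have h := key (t - 0) (927 / 1250 - t) (by linarith) (by linarith)
  refine h.trans (le_of_eq ?_)
  ring

theorem certA2 {t : ℝ} (h0 : 0 ≤ t) (h1 : t ≤ 927 / 1250) :
    0 ≤ (31416 / 10000 - t) ^ 3 * (1015 / 10000 + 984 / 10000 * t + 5 / 1000 * t ^ 2) - ((t - t ^ 3 / 6 + t ^ 5 / 120) + (31416 / 10000 - t) * (1 + 1 / 100000 - t ^ 2 / 2 + t ^ 4 / 24)) := by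
  have key : ∀ x y : ℝ, 0 ≤ x → 0 ≤ y → 0 ≤
      (22492452915625 / 912719664177876) * y ^ 5 +
      (125243798355637 / 456359832088938) * x * y ^ 4 +
      (12996323984262419 / 45635983208893800) * x ^ 2 * y ^ 3 +
      (18385072056865 / 228179916044469) * x ^ 3 * y ^ 2 +
      (65154523805677 / 1825439328355752) * x ^ 4 * y +
      (168287000500177 / 9127196641778760) * x ^ 5 := by
    intro x y hx hy
    positivity
  have h := key (t - 0) (927 / 1250 - t) (by linarith) (by linarith)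
  refine h.trans (le_of_eq ?_)
  ring

theorem certA3_1 {t : ℝ} (h0 : 0 ≤ t) (h1 : t ≤ 927 / 2500) :
    0 ≤ (31416 / 10000 - t) ^ 2 * (1015 / 10000 + 648 / 10000 * t + 26 / 1000 * t ^ 2 + 241 / 10000 * t ^ 3) - 1 := by
  have key : ∀ x y : ℝ, 0 ≤ x → 0 ≤ y → 0 ≤
      (172805843750000 / 684539748133407) * y ^ 5 +
      (929518737460000 / 684539748133407) * x * y ^ 4 +
      (1331549685160160 / 684539748133407) * x ^ 2 * y ^ 3 +
      (2097775444787687087 / 1711349370333517500) * x ^ 3 * y ^ 2 +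
      (765169331198942587 / 1711349370333517500) * x ^ 4 * y +
      (582917539446773087 / 6845397481334070000) * x ^ 5 := by
    intro x y hx hy
    positivity
  have h := key (t - 0) (927 / 2500 - t) (by linarith) (by linarith)
  refine h.trans (le_of_eq ?_)
  ring

theorem certA3_2 {t : ℝ} (h0 : 927 / 2500 ≤ t) (h1 : t ≤ 927 / 1250) :
    0 ≤ (31416 / 10000 - t) ^ 2 * (1015 / 10000 + 648 / 10000 * t + 26 / 1000 * t ^ 2 + 241 / 10000 * t ^ 3) - 1 := by
  have key : ∀ x y : ℝ, 0 ≤ x → 0 ≤ y → 0 ≤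
      (582917539446773087 / 6845397481334070000) * y ^ 5 +
      (1384249034835980261 / 3422698740667035000) * x * y ^ 4 +
      (1805596189663877261 / 1711349370333517500) * x ^ 2 * y ^ 3 +
      (1276032647993281087 / 855674685166758750) * x ^ 3 * y ^ 2 +
      (2709075040139888 / 3422698740667035) * x ^ 4 * y +
      (41166720406400 / 684539748133407) * x ^ 5 := by
    intro x y hx hy
    positivity
  have h := key (t - 927 / 2500) (927 / 1250 - t) (by linarith) (by linarith)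
  refine h.trans (le_of_eq ?_)
  ring

theorem certA3 {t : ℝ} (h0 : 0 ≤ t) (h1 : t ≤ 927 / 1250) :
    0 ≤ (31416 / 10000 - t) ^ 2 * (1015 / 10000 + 648 / 10000 * t + 26 / 1000 * t ^ 2 + 241 / 10000 * t ^ 3) - 1 := by
  rcases le_total t (927 / 2500) with h2 | h2
  · exact certA3_1 (h0) h2
  exact certA3_2 h2 h1


theorem certB5_1 {w : ℝ} (h0 : 0 ≤ w) (h1 : w ≤ 1 / 2) :
    0 ≤ (9 - w) ^ 5 * (8233 / 1000000 + 2793 / 200000 * w + 2959 / 500000 * w ^ 2 + 4111 / 1000000 * w ^ 3) - (486 + 540 * w + 30 * w ^ 2) := by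
  have key : ∀ x y : ℝ, 0 ≤ x → 0 ≤ y → 0 ≤
      (601668 / 15625) * y ^ 8 +
      (33884784 / 15625) * x * y ^ 7 +
      (141695511 / 15625) * x ^ 2 * y ^ 6 +
      (488318589 / 31250) * x ^ 3 * y ^ 5 +
      (17083953 / 1250) * x ^ 4 * y ^ 4 +
      (389861473 / 62500) * x ^ 5 * y ^ 3 +
      (348821151 / 250000) * x ^ 6 * y ^ 2 +
      (76999513 / 500000) * x ^ 7 * y +
      (17133047 / 1000000) * x ^ 8 := by
    intro x y hx hy
    positivity
  have h := key (w - 0) (1 / 2 - w) (by linarith) (by linarith)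
  refine h.trans (le_of_eq ?_)
  ring

theorem certB5_2 {w : ℝ} (h0 : 1 / 2 ≤ w) (h1 : w ≤ 1) :
    0 ≤ (9 - w) ^ 5 * (8233 / 1000000 + 2793 / 200000 * w + 2959 / 500000 * w ^ 2 + 4111 / 1000000 * w ^ 3) - (486 + 540 * w + 30 * w ^ 2) := by
  have key : ∀ x y : ℝ, 0 ≤ x → 0 ≤ y → 0 ≤
      (17133047 / 1000000) * y ^ 8 +
      (60064863 / 500000) * x * y ^ 7 +
      (72387469 / 62500) * x ^ 2 * y ^ 6 +
      (655664819 / 125000) * x ^ 3 * y ^ 5 +
      (34611526 / 3125) * x ^ 4 * y ^ 4 +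
      (186066624 / 15625) * x ^ 5 * y ^ 3 +
      (99748992 / 15625) * x ^ 6 * y ^ 2 +
      (21326848 / 15625) * x ^ 7 * y +
      (57344 / 15625) * x ^ 8 := by
    intro x y hx hy
    positivity
  have h := key (w - 1 / 2) (1 - w) (by linarith) (by linarith)
  refine h.trans (le_of_eq ?_)
  ring

theorem certB5 {w : ℝ} (h0 : 0 ≤ w) (h1 : w ≤ 1) :
    0 ≤ (9 - w) ^ 5 * (8233 / 1000000 + 2793 / 200000 * w + 2959 / 500000 * w ^ 2 + 4111 / 1000000 * w ^ 3) - (486 + 540 * w + 30 * w ^ 2) := by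
  rcases le_total w (1 / 2) with h2 | h2
  · exact certB5_1 (h0) h2
  exact certB5_2 h2 h1

theorem certB6_1 {w : ℝ} (h0 : 0 ≤ w) (h1 : w ≤ 1 / 2) :
    0 ≤ (9 - w) ^ 6 * (2747 / 1000000 + 6633 / 1000000 * w + 1579 / 500000 * w ^ 2 + 833 / 250000 * w ^ 3) - (1458 + 2430 * w + 270 * w ^ 2 + 2 * w ^ 3) := by
  have key : ∀ x y : ℝ, 0 ≤ x → 0 ≤ y → 0 ≤
      (14947416 / 15625) * y ^ 9 +
      (621736884 / 15625) * x * y ^ 8 +
      (3092997258 / 15625) * x ^ 2 * y ^ 7 +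
      (6760567393 / 15625) * x ^ 3 * y ^ 6 +
      (16125621483 / 31250) * x ^ 4 * y ^ 5 +
      (22378743411 / 62500) * x ^ 5 * y ^ 4 +
      (18105000063 / 125000) * x ^ 6 * y ^ 3 +
      (8376253587 / 250000) * x ^ 7 * y ^ 2 +
      (1186123747 / 250000) * x ^ 8 * y +
      (120115691 / 250000) * x ^ 9 := by
    intro x y hx hy
    positivity
  have h := key (w - 0) (1 / 2 - w) (by linarith) (by linarith)
  refine h.trans (le_of_eq ?_)
  ring

theorem certB6_2 {w : ℝ} (h0 : 1 / 2 ≤ w) (h1 : w ≤ 1) :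
    0 ≤ (9 - w) ^ 6 * (2747 / 1000000 + 6633 / 1000000 * w + 1579 / 500000 * w ^ 2 + 833 / 250000 * w ^ 3) - (1458 + 2430 * w + 270 * w ^ 2 + 2 * w ^ 3) := by
  have key : ∀ x y : ℝ, 0 ≤ x → 0 ≤ y → 0 ≤
      (120115691 / 250000) * y ^ 9 +
      (975958691 / 250000) * x * y ^ 8 +
      (6694933139 / 250000) * x ^ 2 * y ^ 7 +
      (1446471739 / 12500) * x ^ 3 * y ^ 6 +
      (867125848 / 3125) * x ^ 4 * y ^ 5 +
      (5921476928 / 15625) * x ^ 5 * y ^ 4 +
      (4627402368 / 15625) * x ^ 6 * y ^ 3 +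
      (1937925632 / 15625) * x ^ 7 * y ^ 2 +
      (68263936 / 3125) * x ^ 8 * y +
      (360448 / 3125) * x ^ 9 := by
    intro x y hx hy
    positivity
  have h := key (w - 1 / 2) (1 - w) (by linarith) (by linarith)
  refine h.trans (le_of_eq ?_)
  ring

theorem certB6 {w : ℝ} (h0 : 0 ≤ w) (h1 : w ≤ 1) :
    0 ≤ (9 - w) ^ 6 * (2747 / 1000000 + 6633 / 1000000 * w + 1579 / 500000 * w ^ 2 + 833 / 250000 * w ^ 3) - (1458 + 2430 * w + 270 * w ^ 2 + 2 * w ^ 3) := by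
  rcases le_total w (1 / 2) with h2 | h2
  · exact certB6_1 (h0) h2
  exact certB6_2 h2 h1

theorem certB7_1 {w : ℝ} (h0 : 0 ≤ w) (h1 : w ≤ 1 / 2) :
    0 ≤ (9 - w) ^ 7 * (917 / 1000000 + 19 / 6250 * w + 721 / 500000 * w ^ 2 + 99 / 40000 * w ^ 3) - (4374 + 10206 * w + 1890 * w ^ 2 + 42 * w ^ 3) := by
  have key : ∀ x y : ℝ, 0 ≤ x → 0 ≤ y → 0 ≤
      (191721168 / 15625) * y ^ 10 +
      (9300459528 / 15625) * x * y ^ 9 +
      (54417016836 / 15625) * x ^ 2 * y ^ 8 +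
      (143507323212 / 15625) * x ^ 3 * y ^ 7 +
      (213758159496 / 15625) * x ^ 4 * y ^ 6 +
      (194110918092 / 15625) * x ^ 5 * y ^ 5 +
      (109209620352 / 15625) * x ^ 6 * y ^ 4 +
      (149058686141 / 62500) * x ^ 7 * y ^ 3 +
      (119027677283 / 250000) * x ^ 8 * y ^ 2 +
      (29287870023 / 500000) * x ^ 9 * y +
      (1060743483 / 200000) * x ^ 10 := by
    intro x y hx hy
    positivity
  have h := key (w - 0) (1 / 2 - w) (by linarith) (by linarith)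
  refine h.trans (le_of_eq ?_)
  ring

theorem certB7_2 {w : ℝ} (h0 : 1 / 2 ≤ w) (h1 : w ≤ 1) :
    0 ≤ (9 - w) ^ 7 * (917 / 1000000 + 19 / 6250 * w + 721 / 500000 * w ^ 2 + 99 / 40000 * w ^ 3) - (4374 + 10206 * w + 1890 * w ^ 2 + 42 * w ^ 3) := by
  have key : ∀ x y : ℝ, 0 ≤ x → 0 ≤ y → 0 ≤
      (1060743483 / 200000) * y ^ 10 +
      (23749304127 / 500000) * x * y ^ 9 +
      (94104130751 / 250000) * x ^ 2 * y ^ 8 +
      (118093407477 / 62500) * x ^ 3 * y ^ 7 +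
      (84097853644 / 15625) * x ^ 4 * y ^ 6 +
      (142079663936 / 15625) * x ^ 5 * y ^ 5 +
      (146564613888 / 15625) * x ^ 6 * y ^ 4 +
      (91074297088 / 15625) * x ^ 7 * y ^ 3 +
      (31460777984 / 15625) * x ^ 8 * y ^ 2 +
      (4683743232 / 15625) * x ^ 9 * y +
      (15597568 / 15625) * x ^ 10 := by
    intro x y hx hy
    positivity
  have h := key (w - 1 / 2) (1 - w) (by linarith) (by linarith)
  refine h.trans (le_of_eq ?_)
  ring

theorem certB7 {w : ℝ} (h0 : 0 ≤ w) (h1 : w ≤ 1) :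
    0 ≤ (9 - w) ^ 7 * (917 / 1000000 + 19 / 6250 * w + 721 / 500000 * w ^ 2 + 99 / 40000 * w ^ 3) - (4374 + 10206 * w + 1890 * w ^ 2 + 42 * w ^ 3) := by
  rcases le_total w (1 / 2) with h2 | h2
  · exact certB7_1 (h0) h2
  exact certB7_2 h2 h1

theorem certB8_1 {w : ℝ} (h0 : 0 ≤ w) (h1 : w ≤ 1 / 2) :
    0 ≤ (9 - w) ^ 8 * (307 / 1000000 + 1371 / 1000000 * w + 131 / 250000 * w ^ 2 + 43 / 25000 * w ^ 3) - (13122 + 40824 * w + 11340 * w ^ 2 + 504 * w ^ 3 + 2 * w ^ 4) := by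
  have key : ∀ x y : ℝ, 0 ≤ x → 0 ≤ y → 0 ≤
      (2986987104 / 15625) * y ^ 11 +
      (135994180176 / 15625) * x * y ^ 10 +
      (902258668224 / 15625) * x ^ 2 * y ^ 9 +
      (2784930541344 / 15625) * x ^ 3 * y ^ 8 +
      (5006906349044 / 15625) * x ^ 4 * y ^ 7 +
      (5705706212486 / 15625) * x ^ 5 * y ^ 6 +
      (4248516318522 / 15625) * x ^ 6 * y ^ 5 +
      (2065285741351 / 15625) * x ^ 7 * y ^ 4 +
      (5129632846923 / 125000) * x ^ 8 * y ^ 3 +
      (1988872321821 / 250000) * x ^ 9 * y ^ 2 +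
      (25043493651 / 25000) * x ^ 10 * y +
      (20854669557 / 250000) * x ^ 11 := by
    intro x y hx hy
    positivity
  have h := key (w - 0) (1 / 2 - w) (by linarith) (by linarith)
  refine h.trans (le_of_eq ?_)
  ring

theorem certB8_2 {w : ℝ} (h0 : 1 / 2 ≤ w) (h1 : w ≤ 1) :
    0 ≤ (9 - w) ^ 8 * (307 / 1000000 + 1371 / 1000000 * w + 131 / 250000 * w ^ 2 + 43 / 25000 * w ^ 3) - (13122 + 40824 * w + 11340 * w ^ 2 + 504 * w ^ 3 + 2 * w ^ 4) := by
  have key : ∀ x y : ℝ, 0 ≤ x → 0 ≤ y → 0 ≤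
      (20854669557 / 250000) * y ^ 11 +
      (13022987109 / 15625) * x * y ^ 10 +
      (1568200894161 / 250000) * x ^ 2 * y ^ 9 +
      (1997577835593 / 62500) * x ^ 3 * y ^ 8 +
      (1561815707104 / 15625) * x ^ 4 * y ^ 7 +
      (612327944704 / 3125) * x ^ 5 * y ^ 6 +
      (773241425152 / 3125) * x ^ 6 * y ^ 5 +
      (3157391734528 / 15625) * x ^ 7 * y ^ 4 +
      (1617463443456 / 15625) * x ^ 8 * y ^ 3 +
      (474706051072 / 15625) * x ^ 9 * y ^ 2 +
      (61616422912 / 15625) * x ^ 10 * y +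
      (263716864 / 15625) * x ^ 11 := by
    intro x y hx hy
    positivity
  have h := key (w - 1 / 2) (1 - w) (by linarith) (by linarith)
  refine h.trans (le_of_eq ?_)
  ring

theorem certB8 {w : ℝ} (h0 : 0 ≤ w) (h1 : w ≤ 1) :
    0 ≤ (9 - w) ^ 8 * (307 / 1000000 + 1371 / 1000000 * w + 131 / 250000 * w ^ 2 + 43 / 25000 * w ^ 3) - (13122 + 40824 * w + 11340 * w ^ 2 + 504 * w ^ 3 + 2 * w ^ 4) := by
  rcases le_total w (1 / 2) with h2 | h2
  · exact certB8_1 (h0) h2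
  exact certB8_2 h2 h1


theorem certF {ε : ℝ} (h0 : 49 / 250 ≤ ε) (h1 : ε ≤ 1 / 2) :
    0 ≤ (1 - ε / 3 + ε ^ 2 / 10 - ε ^ 3 / 42) ^ 3 * (148 / 100000 + 79 / 10000 * ε ^ 2) -
      ((1 - ε + ε ^ 2 / 2 - ε ^ 3 / 6 + ε ^ 4 / 24) ^ 3 * (136258 / 100000000) +
        (1 - ε + ε ^ 2 / 2 - ε ^ 3 / 6 + ε ^ 4 / 24) ^ 2 * (3 * (2 * ε) * (446 / 1000000) +
          3 * (214 / 100 * ε * (1 - ε / 3 + ε ^ 2 / 10)) * (21027 / 100000000)) +
        (1 - ε + ε ^ 2 / 2 - ε ^ 3 / 6 + ε ^ 4 / 24) * (3 * (2 * ε) ^ 2 * (34905 / 100000000) +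
          3 * (214 / 100 * ε * (1 - ε / 3 + ε ^ 2 / 10)) ^ 2 * (7638 / 100000000)) +
        ((2 * ε) ^ 3 * (3035 / 10000000) +
          (214 / 100 * ε * (1 - ε / 3 + ε ^ 2 / 10)) ^ 3 * (4764 / 100000000))) := by
  have key : ∀ x y : ℝ, 0 ≤ x → 0 ≤ y → 0 ≤
      (161699993801314537774877410866868303 / 8555503673824243519743590400000000) * y ^ 12 +
      (187278757253665801687324422642902657 / 712958639485353626645299200000000) * x * y ^ 11 +
      (2738160991514715159461428945222261169 / 1425917278970707253290598400000000) * x ^ 2 * y ^ 10 +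
      (388473757481952278991740980785230062799 / 44916394287577278478653849600000000) * x ^ 3 * y ^ 9 +
      (36572021945967891277244631614411900081 / 1437324617202472911316923187200000) * x ^ 4 * y ^ 8 +
      (73176384383168739968278000514231327 / 1437324617202472911316923187200) * x ^ 5 * y ^ 7 +
      (19068244337849795245866407750296205 / 268300595211128276779158994944) * x ^ 6 * y ^ 6 +
      (4021306812340281496182966191741875 / 57492984688098916452676927488) * x ^ 7 * y ^ 5 +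
      (3171828447234489019417078472421875 / 65706268214970190231630774272) * x ^ 8 * y ^ 4 +
      (128437860507093243961724934951171875 / 5634312499433693812362338893824) * x ^ 9 * y ^ 3 +
      (2911732073323809547509190673828125 / 417356481439532874989802881024) * x ^ 10 * y ^ 2 +
      (773157604631235873652801513671875 / 626034722159299312484704321536) * x ^ 11 * y +
      (2127418528119079266948699951171875 / 22537249997734775249449355575296) * x ^ 12 := by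
    intro x y hx hy
    positivity
  have h := key (ε - 49 / 250) (1 / 2 - ε) (by linarith) (by linarith)
  refine h.trans (le_of_eq ?_)
  ring


/-! ## Coefficient lists -/

noncomputable def LA0 : List ℝ := [0, 0, 0, 52470395159 / 16000000000000, 84453107739 / 16000000000000, 610931170577 / 200000000000000, 635781162989 / 500000000000000, 5068935827043 / 10000000000000000, -111114239227 / 2000000000000000, -237832137561 / 2500000000000000, 202847271 / 200000000000000, 81543473 / 16000000000000, -320771 / 640000000000]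

noncomputable def LA1 : List ℝ := [0, 0, 16721334721 / 16000000000000, 18855742087 / 8000000000000, 793177517181 / 400000000000000, 1986866037989 / 2000000000000000, 4519708660377 / 10000000000000000, 196661251247 / 2000000000000000, -10103047613 / 312500000000000, -4393876131 / 400000000000000, 193347 / 160000000000, 29161 / 320000000000]

noncomputable def LA2 : List ℝ := [0, 5328776999 / 16000000000000, 15459020633 / 16000000000000, 437004221059 / 400000000000000, 1391976848941 / 2000000000000000, 3511183817003 / 10000000000000000, 266003349033 / 2000000000000000, 4510793643 / 312500000000000, -1283513 / 250000000000, -2431613 / 4000000000000, -2651 / 160000000000]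

noncomputable def LA3 : List ℝ := [1698181681 / 16000000000000, 75288843 / 200000000000, 107840120563 / 200000000000000, 864913288379 / 2000000000000000, 626593924923 / 2500000000000000, 117995243631 / 1000000000000000, 43309599733 / 1250000000000000, 388368669 / 100000000000000, 45277 / 250000000000, 241 / 80000000000]

noncomputable def LB0 : List ℝ := [8233 / 1000000, 0, -2578701 / 156250000, 0, -23901314087 / 12500000000000, 0, 200611435410359 / 7812500000000000, 0, -31256315947653729 / 1250000000000000000, 0, 51822962163460947 / 3125000000000000000, 0, -10631335560357913921 / 1000000000000000000000, 0, 874623900447456447 / 200000000000000000000, 0, -441197868573625543 / 500000000000000000000, 0, 67104988071202793 / 1000000000000000000000]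

noncomputable def LB1 : List ℝ := [2747 / 1000000, 0, -90249 / 625000000, 0, -47706095543 / 6250000000000, 0, 28439216717 / 3906250000000, 0, -57873127812437 / 10000000000000000, 0, 52113655463417 / 10000000000000000, 0, -9410675711909 / 5000000000000000, 0, 536022745937 / 2500000000000000]

noncomputable def LB2 : List ℝ := [917 / 1000000, 0, 1192993 / 625000000, 0, -207552861 / 100000000000, 0, 458533 / 312500000, 0, -134368393 / 50000000000, 0, 2511333 / 4000000000]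

noncomputable def LB3 : List ℝ := [307 / 1000000, 0, 1371 / 1000000, 0, 131 / 250000, 0, 43 / 25000]

/-! ## The region `[12/5, π]` -/

theorem sinc_nn {y : ℝ} (h0 : 0 ≤ y) (h1 : y ≤ Real.pi) : 0 ≤ Real.sinc y := by
  rcases eq_or_lt_of_le h0 with h | h
  · rw [← h, Real.sinc_zero]
    exact zero_le_one
  · rw [Real.sinc_of_ne_zero h.ne']
    exact div_nonneg (Real.sin_nonneg_of_nonneg_of_le_pi h0 h1) h0

theorem sinc_int {x : ℝ} (hx : 0 < x) : ∫ u in (0 : ℝ)..1, u ^ 2 * Real.sinc (u * x) =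
    (Real.sin x - x * Real.cos x) / x ^ 3 := by
  have h := intervalIntegral.integral_eq_sub_of_hasDerivAt
    (f := fun u : ℝ => (Real.sin (u * x) - u * x * Real.cos (u * x)) / x ^ 3)
    (f' := fun u : ℝ => u ^ 2 * Real.sinc (u * x)) (a := 0) (b := 1) ?_
    (Continuous.intervalIntegrable (by have := Real.continuous_sinc; fun_prop) _ _)
  · rw [h]
    simp
  · intro u _
    have h1 : HasDerivAt (fun u : ℝ => u * x) x u := by
      simpa using (hasDerivAt_id u).mul_const x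
    have h2 := ((h1.sin).sub (h1.mul h1.cos)).div_const (x ^ 3)
    refine h2.congr_deriv ?_
    rcases eq_or_ne u 0 with rfl | hu
    · simp
    · rw [Real.sinc_of_ne_zero (mul_ne_zero hu hx.ne')]
      field_simp
      ring

theorem ck_bd {ε x : ℝ} (hε : 0 ≤ ε) (hx : 0 < x) (hx' : x ≤ Real.pi) :
    0 ≤ ck ε x ∧ ck ε x ≤ (Real.sin x - x * Real.cos x) / x ^ 3 := by
  have hs : ∀ u ∈ Icc (0 : ℝ) 1, 0 ≤ Real.sinc (u * x) := fun u hu =>
    sinc_nn (mul_nonneg hu.1 hx.le) ((mul_le_of_le_one_left hx.le hu.2).trans hx')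
  constructor
  · unfold ck
    refine intervalIntegral.integral_nonneg zero_le_one fun u hu => ?_
    exact mul_nonneg (mul_nonneg (sq_nonneg _) (Real.exp_pos _).le) (hs u hu)
  · rw [← sinc_int hx]
    unfold ck
    refine intervalIntegral.integral_mono_on zero_le_one
      (Continuous.intervalIntegrable (by have := Real.continuous_sinc; fun_prop) _ _)
      (Continuous.intervalIntegrable (by have := Real.continuous_sinc; fun_prop) _ _)
      fun u hu => ?_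
    refine mul_le_mul_of_nonneg_right ?_ (hs u hu)
    refine mul_le_of_le_one_right (sq_nonneg _) ?_
    rw [Real.exp_le_one_iff]
    have : 0 ≤ ε * u ^ 2 := by positivity
    linarith

/-- upper bound of `sin x / x`, `x = 3.1416 - t` -/
noncomputable def uu (t : ℝ) : ℝ := t * (3185 / 10000 + 1031 / 10000 * t - 275 / 10000 * t ^ 2)
/-- upper bound of `(sin x - x cos x) / x ^ 3` -/
noncomputable def vA (t : ℝ) : ℝ := 1015 / 10000 + 984 / 10000 * t + 5 / 1000 * t ^ 2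
/-- upper bound of `1 / x ^ 2` -/
noncomputable def wA (t : ℝ) : ℝ :=
  1015 / 10000 + 648 / 10000 * t + 26 / 1000 * t ^ 2 + 241 / 10000 * t ^ 3

theorem regA_pt {x : ℝ} (h0 : 12 / 5 ≤ x) (h1 : x ≤ Real.pi) :
    0 ≤ Real.sin x / x ∧ Real.sin x / x ≤ uu (31416 / 10000 - x) ∧
    (Real.sin x - x * Real.cos x) / x ^ 3 ≤ vA (31416 / 10000 - x) ∧
    1 / x ^ 2 ≤ wA (31416 / 10000 - x) := by
  have hp1 : (3.14159 : ℝ) < Real.pi := by
    have := Real.pi_gt_d6
    linarith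
  have hp2 : Real.pi < 3.1416 := by
    have := Real.pi_lt_d6
    linarith
  have hx0 : 0 < x := by linarith
  obtain ⟨t, ht⟩ : ∃ t : ℝ, t = 31416 / 10000 - x := ⟨_, rfl⟩
  have hxt : x = 31416 / 10000 - t := by linarith
  have ht0 : 0 ≤ t := by
    rw [ht]
    norm_num at hp2 ⊢
    linarith
  have ht1 : t ≤ 927 / 1250 := by
    rw [ht]
    linarith
  rw [← ht]
  have hst : Real.sin x ≤ t - t ^ 3 / 6 + t ^ 5 / 120 := by
    rw [← Real.sin_pi_sub]
    refine le_trans ?_ (sin5 ht0)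
    refine Real.sin_le_sin_of_le_of_le_pi_div_two (by linarith) ?_ ?_
    · linarith
    · norm_num at hp2 ⊢
      rw [ht]
      linarith
  have hct : -Real.cos x ≤ 1 + 1 / 100000 - t ^ 2 / 2 + t ^ 4 / 24 := by
    rw [← Real.cos_pi_sub]
    obtain ⟨s, hs⟩ : ∃ s : ℝ, s = Real.pi - x := ⟨_, rfl⟩
    rw [← hs]
    have hs0 : 0 ≤ s := by linarith
    have hst1 : s ≤ t := by
      norm_num at hp2
      linarith
    have hst2 : t - 1 / 100000 ≤ s := by
      norm_num at hp1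
      linarith
    have h2 := cos4 hs0
    have h3 : s ^ 4 ≤ t ^ 4 := pow_le_pow_left₀ hs0 hst1 4
    have h4 : t ^ 2 - s ^ 2 ≤ 2 / 100000 := by nlinarith
    linarith
  have hsx : 0 ≤ Real.sin x := Real.sin_nonneg_of_nonneg_of_le_pi hx0.le h1
  refine ⟨div_nonneg hsx hx0.le, ?_, ?_, ?_⟩
  · rw [div_le_iff₀ hx0]
    refine hst.trans ?_
    have h := mul_nonneg ht0 (certA1 ht0 ht1)
    rw [hxt]
    unfold uu
    linarith
  · rw [div_le_iff₀ (by positivity)]
    have h := certA2 ht0 ht1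
    have h2 : x * (-Real.cos x) ≤ x * (1 + 1 / 100000 - t ^ 2 / 2 + t ^ 4 / 24) :=
      mul_le_mul_of_nonneg_left hct hx0.le
    unfold vA
    rw [← hxt] at h
    linarith
  · rw [div_le_iff₀ (by positivity)]
    have h := certA3 ht0 ht1
    rw [← hxt] at h
    unfold wA
    linarith

/-- the integral over the first region -/
theorem regA_int {e a : ℝ} (he : 0 ≤ e) (ha : 0 ≤ a) :
    ∫ t in (0 : ℝ)..(927 / 1250), (e * uu t + a * vA t) ^ 3 * wA t ≤
      e ^ 3 * (597 / 1000000) + 3 * e ^ 2 * a * (446 / 1000000) +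
        3 * e * a ^ 2 * (34905 / 100000000) + a ^ 3 * (3035 / 10000000) := by
  have h1 : (fun t : ℝ => (e * uu t + a * vA t) ^ 3 * wA t) = fun t =>
      e ^ 3 * pe LA0 t + 3 * e ^ 2 * a * pe LA1 t + 3 * e * a ^ 2 * pe LA2 t + a ^ 3 * pe LA3 t := by
    funext t
    simp only [pe, uu, vA, wA, LA0, LA1, LA2, LA3]
    ring
  have c0 := pe_cont LA0
  have c1 := pe_cont LA1
  have c2 := pe_cont LA2
  have c3 := pe_cont LA3
  rw [h1, intervalIntegral.integral_add (Continuous.intervalIntegrable (by fun_prop) _ _)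
    (Continuous.intervalIntegrable (by fun_prop) _ _),
    intervalIntegral.integral_add (Continuous.intervalIntegrable (by fun_prop) _ _)
    (Continuous.intervalIntegrable (by fun_prop) _ _),
    intervalIntegral.integral_add (Continuous.intervalIntegrable (by fun_prop) _ _)
    (Continuous.intervalIntegrable (by fun_prop) _ _),
    intervalIntegral.integral_const_mul, intervalIntegral.integral_const_mul,
    intervalIntegral.integral_const_mul, intervalIntegral.integral_const_mul,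
    int_pe0, int_pe0, int_pe0, int_pe0]
  have k0 : (927 / 1250 : ℝ) * pI 0 LA0 (927 / 1250) ≤ 597 / 1000000 := by
    norm_num [pI, LA0]
  have k1 : (927 / 1250 : ℝ) * pI 0 LA1 (927 / 1250) ≤ 446 / 1000000 := by
    norm_num [pI, LA1]
  have k2 : (927 / 1250 : ℝ) * pI 0 LA2 (927 / 1250) ≤ 34905 / 100000000 := by
    norm_num [pI, LA2]
  have k3 : (927 / 1250 : ℝ) * pI 0 LA3 (927 / 1250) ≤ 3035 / 10000000 := by
    norm_num [pI, LA3]
  have j0 := mul_le_mul_of_nonneg_left k0 (pow_nonneg he 3)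
  have j1 := mul_le_mul_of_nonneg_left k1 (show 0 ≤ 3 * e ^ 2 * a by positivity)
  have j2 := mul_le_mul_of_nonneg_left k2 (show 0 ≤ 3 * e * a ^ 2 by positivity)
  have j3 := mul_le_mul_of_nonneg_left k3 (pow_nonneg ha 3)
  linarith

theorem uu_nn {t : ℝ} (h0 : 0 ≤ t) (h1 : t ≤ 927 / 1250) : 0 ≤ uu t := by
  unfold uu
  refine mul_nonneg h0 ?_
  nlinarith

theorem vA_nn {t : ℝ} (h0 : 0 ≤ t) : 0 ≤ vA t := by
  unfold vA
  positivity

theorem wA_nn {t : ℝ} (h0 : 0 ≤ t) : 0 ≤ wA t := by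
  unfold wA
  positivity

theorem regA {ε : ℝ} (hε : 0 < ε) (hT : S_TF2)
    (hint : IntegrableOn (fun x => |cf ε x| ^ 3 / x ^ 2) (Ioi (12 / 5 : ℝ))) :
    zt ε ^ 3 * ∫ x in (12 / 5 : ℝ)..Real.pi, |cf ε x| ^ 3 / x ^ 2 ≤
      Real.exp (-ε) ^ 3 * (597 / 1000000) + 3 * Real.exp (-ε) ^ 2 * (2 * ε) * (446 / 1000000) +
        3 * Real.exp (-ε) * (2 * ε) ^ 2 * (34905 / 100000000) +
        (2 * ε) ^ 3 * (3035 / 10000000) := by
  obtain ⟨hz, hA, -⟩ := hT ε hε
  have hE := (Real.exp_pos (-ε)).le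
  have hp1 : (3.14159 : ℝ) < Real.pi := by
    have := Real.pi_gt_d6
    linarith
  have hp2 : Real.pi < 3.1416 := by
    have := Real.pi_lt_d6
    linarith
  have hle : (12 / 5 : ℝ) ≤ Real.pi := by
    norm_num at hp1
    linarith
  rw [← intervalIntegral.integral_const_mul]
  have hcont : Continuous (fun x : ℝ => (Real.exp (-ε) * uu (31416 / 10000 - x) +
      2 * ε * vA (31416 / 10000 - x)) ^ 3 * wA (31416 / 10000 - x)) := by
    unfold uu vA wA
    fun_prop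
  have h1 : ∫ x in (12 / 5 : ℝ)..Real.pi, zt ε ^ 3 * (|cf ε x| ^ 3 / x ^ 2) ≤
      ∫ x in (12 / 5 : ℝ)..Real.pi, (Real.exp (-ε) * uu (31416 / 10000 - x) +
        2 * ε * vA (31416 / 10000 - x)) ^ 3 * wA (31416 / 10000 - x) := by
    refine intervalIntegral.integral_mono_on hle ?_ (hcont.intervalIntegrable _ _) ?_
    · refine IntervalIntegrable.const_mul ?_ _
      rw [intervalIntegrable_iff_integrableOn_Ioc_of_le hle]
      exact hint.mono_set Ioc_subset_Ioi_self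
    · intro x hx
      have hx0 : 0 < x := by linarith [hx.1]
      obtain ⟨a0, a1, a2, a3⟩ := regA_pt hx.1 hx.2
      obtain ⟨b0, b1⟩ := ck_bd hε.le hx0 hx.2
      have h2 : zt ε * |cf ε x| ≤ Real.exp (-ε) * uu (31416 / 10000 - x) +
          2 * ε * vA (31416 / 10000 - x) := by
        have hm : zt ε * |cf ε x| = |zt ε * cf ε x| := by rw [abs_mul, abs_of_pos hz]
        rw [hm, hA x, Real.sinc_of_ne_zero hx0.ne']
        rw [abs_of_nonneg (by positivity)]
        have c1 := mul_le_mul_of_nonneg_left a1 hE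
        have c2 := mul_le_mul_of_nonneg_left (b1.trans a2) (show 0 ≤ 2 * ε by linarith)
        linarith
      have h3 : 0 ≤ zt ε * |cf ε x| := by positivity
      have h4 : (zt ε * |cf ε x|) ^ 3 ≤ (Real.exp (-ε) * uu (31416 / 10000 - x) +
          2 * ε * vA (31416 / 10000 - x)) ^ 3 := pow_le_pow_left₀ h3 h2 3
      have h5 : zt ε ^ 3 * (|cf ε x| ^ 3 / x ^ 2) = (zt ε * |cf ε x|) ^ 3 * (1 / x ^ 2) := by
        ring
      rw [h5]
      exact mul_le_mul h4 a3 (by positivity) ((pow_nonneg h3 3).trans h4)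
  refine h1.trans ?_
  have h2 : ∫ x in (12 / 5 : ℝ)..Real.pi, (Real.exp (-ε) * uu (31416 / 10000 - x) +
        2 * ε * vA (31416 / 10000 - x)) ^ 3 * wA (31416 / 10000 - x) ≤
      ∫ x in (12 / 5 : ℝ)..(31416 / 10000), (Real.exp (-ε) * uu (31416 / 10000 - x) +
        2 * ε * vA (31416 / 10000 - x)) ^ 3 * wA (31416 / 10000 - x) := by
    refine intervalIntegral.integral_mono_interval le_rfl hle ?_ ?_ (hcont.intervalIntegrable _ _)
    · norm_num at hp2 ⊢
      exact hp2.le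
    · refine (ae_restrict_iff' measurableSet_Ioc).2 (Eventually.of_forall fun x hx => ?_)
      have t0 : 0 ≤ 31416 / 10000 - x := by linarith [hx.2]
      have t1 : 31416 / 10000 - x ≤ 927 / 1250 := by linarith [hx.1]
      have := uu_nn t0 t1
      have := vA_nn t0
      have := wA_nn t0
      change 0 ≤ (Real.exp (-ε) * uu (31416 / 10000 - x) +
        2 * ε * vA (31416 / 10000 - x)) ^ 3 * wA (31416 / 10000 - x)
      positivity
  refine h2.trans ?_
  have h3 := intervalIntegral.integral_comp_sub_left (a := (12 / 5 : ℝ)) (b := 31416 / 10000)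
    (fun t : ℝ => (Real.exp (-ε) * uu t + 2 * ε * vA t) ^ 3 * wA t) (31416 / 10000)
  rw [h3, sub_self, show (31416 / 10000 : ℝ) - 12 / 5 = 927 / 1250 by norm_num]
  exact regA_int hE (by linarith)

/-! ## The region `[π, 2π]` -/

theorem inv_sum {n : ℕ} {s P Q : ℝ} (h0 : 0 ≤ s) (h1 : s ≤ 1)
    (hP : (3 - s) ^ n + (3 + s) ^ n = P) (h : 0 ≤ (9 - s ^ 2) ^ n * Q - P) :
    (1 / (3 + s)) ^ n + (1 / (3 - s)) ^ n ≤ Q := by
  have ha : 0 < 3 + s := by linarith
  have hb : 0 < 3 - s := by linarith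
  have e : (1 / (3 + s)) ^ n + (1 / (3 - s)) ^ n =
      ((3 - s) ^ n + (3 + s) ^ n) / ((3 + s) ^ n * (3 - s) ^ n) := by
    rw [div_pow, div_pow, one_pow, div_add_div _ _ (by positivity) (by positivity)]
    ring
  have e2 : (3 + s) ^ n * (3 - s) ^ n = (9 - s ^ 2) ^ n := by
    rw [← mul_pow]
    congr 1
    ring
  rw [e, e2, div_le_iff₀ (by rw [← e2]; positivity), hP]
  linarith

theorem s5 {s : ℝ} (h0 : 0 ≤ s) (h1 : s ≤ 1) : (1 / (3 + s)) ^ 5 + (1 / (3 - s)) ^ 5 ≤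
    8233 / 1000000 + 2793 / 200000 * s ^ 2 + 2959 / 500000 * (s ^ 2) ^ 2 +
      4111 / 1000000 * (s ^ 2) ^ 3 := by
  have hw1 : s ^ 2 ≤ 1 := by nlinarith
  refine inv_sum h0 h1 (P := 486 + 540 * s ^ 2 + 30 * (s ^ 2) ^ 2) (by ring) ?_
  exact certB5 (sq_nonneg s) hw1

theorem s6 {s : ℝ} (h0 : 0 ≤ s) (h1 : s ≤ 1) : (1 / (3 + s)) ^ 6 + (1 / (3 - s)) ^ 6 ≤
    2747 / 1000000 + 6633 / 1000000 * s ^ 2 + 1579 / 500000 * (s ^ 2) ^ 2 +
      833 / 250000 * (s ^ 2) ^ 3 := by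
  have hw1 : s ^ 2 ≤ 1 := by nlinarith
  refine inv_sum h0 h1 (P := 1458 + 2430 * s ^ 2 + 270 * (s ^ 2) ^ 2 + 2 * (s ^ 2) ^ 3)
    (by ring) ?_
  exact certB6 (sq_nonneg s) hw1

theorem s7 {s : ℝ} (h0 : 0 ≤ s) (h1 : s ≤ 1) : (1 / (3 + s)) ^ 7 + (1 / (3 - s)) ^ 7 ≤
    917 / 1000000 + 19 / 6250 * s ^ 2 + 721 / 500000 * (s ^ 2) ^ 2 +
      99 / 40000 * (s ^ 2) ^ 3 := by
  have hw1 : s ^ 2 ≤ 1 := by nlinarith
  refine inv_sum h0 h1 (P := 4374 + 10206 * s ^ 2 + 1890 * (s ^ 2) ^ 2 + 42 * (s ^ 2) ^ 3)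
    (by ring) ?_
  exact certB7 (sq_nonneg s) hw1

theorem s8 {s : ℝ} (h0 : 0 ≤ s) (h1 : s ≤ 1) : (1 / (3 + s)) ^ 8 + (1 / (3 - s)) ^ 8 ≤
    307 / 1000000 + 1371 / 1000000 * s ^ 2 + 131 / 250000 * (s ^ 2) ^ 2 +
      43 / 25000 * (s ^ 2) ^ 3 := by
  have hw1 : s ^ 2 ≤ 1 := by nlinarith
  refine inv_sum h0 h1
    (P := 13122 + 40824 * s ^ 2 + 11340 * (s ^ 2) ^ 2 + 504 * (s ^ 2) ^ 3 + 2 * (s ^ 2) ^ 4)
    (by ring) ?_
  exact certB8 (sq_nonneg s) hw1

theorem cosC {s : ℝ} (h0 : 0 ≤ s) (h1 : s ≤ 1) : 0 ≤ Real.cos (Real.pi / 2 * s) ∧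
    Real.cos (Real.pi / 2 * s) ≤ 1 - 12336 / 10000 * s ^ 2 + 25367 / 100000 * s ^ 4 := by
  have hp1 : (3.14159 : ℝ) < Real.pi := by
    have := Real.pi_gt_d6
    linarith
  have hp2 : Real.pi < 3.1416 := by
    have := Real.pi_lt_d6
    linarith
  have hp := Real.pi_pos
  constructor
  · apply Real.cos_nonneg_of_neg_pi_div_two_le_of_le
    · nlinarith
    · nlinarith
  · have h := cos4 (y := Real.pi / 2 * s) (by positivity)
    have a1 : (98695 / 10000 : ℝ) ≤ Real.pi ^ 2 := by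
      norm_num at hp1
      nlinarith
    have a2 : Real.pi ^ 4 ≤ 974092 / 10000 := by
      have h0 := Real.pi_lt_d6
      have h1 : Real.pi ^ 2 ≤ 9869607 / 1000000 := by
        norm_num at h0
        nlinarith
      have h2 : Real.pi ^ 4 = Real.pi ^ 2 * Real.pi ^ 2 := by ring
      have h3 := sq_nonneg Real.pi
      have h4 := mul_le_mul h1 h1 h3 (by norm_num : (0 : ℝ) ≤ 9869607 / 1000000)
      rw [h2]
      refine h4.trans ?_
      norm_num
    have b1 : (Real.pi / 2 * s) ^ 2 / 2 = Real.pi ^ 2 * (s ^ 2 / 8) := by ring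
    have b2 : (Real.pi / 2 * s) ^ 4 / 24 = Real.pi ^ 4 * (s ^ 4 / 384) := by ring
    have c1 := mul_le_mul_of_nonneg_right a1 (show 0 ≤ s ^ 2 / 8 by positivity)
    have c2 := mul_le_mul_of_nonneg_right a2 (show 0 ≤ s ^ 4 / 384 by positivity)
    rw [b1, b2] at h
    have d1 : 0 ≤ s ^ 2 := sq_nonneg s
    have d2 : 0 ≤ s ^ 4 := by positivity
    linarith

/-- the rescaled integrand -/
noncomputable def hB (e ρ s : ℝ) : ℝ :=
  (e * Real.cos (Real.pi / 2 * s) + ρ * (1 / (3 + s))) ^ 3 * (1 / (3 + s)) ^ 5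

theorem hB_sum {e ρ s : ℝ} (he : 0 ≤ e) (hρ : 0 ≤ ρ) (h0 : 0 ≤ s) (h1 : s ≤ 1) :
    hB e ρ s + hB e ρ (-s) ≤ e ^ 3 * pe LB0 s + 3 * e ^ 2 * ρ * pe LB1 s +
      3 * e * ρ ^ 2 * pe LB2 s + ρ ^ 3 * pe LB3 s := by
  obtain ⟨c, hc⟩ : ∃ c : ℝ, c = Real.cos (Real.pi / 2 * s) := ⟨_, rfl⟩
  obtain ⟨hc0, hc1⟩ := cosC h0 h1
  rw [← hc] at hc0 hc1
  have hc' : Real.cos (Real.pi / 2 * -s) = c := by
    rw [mul_neg, Real.cos_neg, hc]
  unfold hB
  rw [hc', ← hc, ← sub_eq_add_neg 3 s]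
  have q5 := s5 h0 h1
  have q6 := s6 h0 h1
  have q7 := s7 h0 h1
  have q8 := s8 h0 h1
  obtain ⟨a, ha⟩ : ∃ a : ℝ, a = 1 / (3 + s) := ⟨_, rfl⟩
  obtain ⟨b, hb⟩ : ∃ b : ℝ, b = 1 / (3 - s) := ⟨_, rfl⟩
  rw [← ha, ← hb] at q5 q6 q7 q8 ⊢
  have ha0 : 0 ≤ a := by
    rw [ha]
    have : 0 < 3 + s := by linarith
    positivity
  have hb0 : 0 ≤ b := by
    rw [hb]
    have : 0 < 3 - s := by linarith
    positivity
  obtain ⟨Cs, hCs⟩ : ∃ Cs : ℝ, Cs = 1 - 12336 / 10000 * s ^ 2 + 25367 / 100000 * s ^ 4 :=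
    ⟨_, rfl⟩
  rw [← hCs] at hc1
  have hC0 : 0 ≤ Cs := hc0.trans hc1
  have e1 : (e * c + ρ * a) ^ 3 * a ^ 5 + (e * c + ρ * b) ^ 3 * b ^ 5 =
      e ^ 3 * (c ^ 3 * (a ^ 5 + b ^ 5)) + 3 * e ^ 2 * ρ * (c ^ 2 * (a ^ 6 + b ^ 6)) +
      3 * e * ρ ^ 2 * (c * (a ^ 7 + b ^ 7)) + ρ ^ 3 * (a ^ 8 + b ^ 8) := by ring
  rw [e1]
  have k0 : c ^ 3 * (a ^ 5 + b ^ 5) ≤ pe LB0 s := by
    refine (mul_le_mul (pow_le_pow_left₀ hc0 hc1 3) q5 (by positivity) (by positivity)).trans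
      (le_of_eq ?_)
    rw [hCs]
    simp only [pe, LB0]
    ring
  have k1 : c ^ 2 * (a ^ 6 + b ^ 6) ≤ pe LB1 s := by
    refine (mul_le_mul (pow_le_pow_left₀ hc0 hc1 2) q6 (by positivity) (by positivity)).trans
      (le_of_eq ?_)
    rw [hCs]
    simp only [pe, LB1]
    ring
  have k2 : c * (a ^ 7 + b ^ 7) ≤ pe LB2 s := by
    refine (mul_le_mul hc1 q7 (by positivity) hC0).trans (le_of_eq ?_)
    rw [hCs]
    simp only [pe, LB2]
    ring
  have k3 : a ^ 8 + b ^ 8 ≤ pe LB3 s := by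
    refine q8.trans (le_of_eq ?_)
    simp only [pe, LB3]
    ring
  have j0 := mul_le_mul_of_nonneg_left k0 (pow_nonneg he 3)
  have j1 := mul_le_mul_of_nonneg_left k1 (show 0 ≤ 3 * e ^ 2 * ρ by positivity)
  have j2 := mul_le_mul_of_nonneg_left k2 (show 0 ≤ 3 * e * ρ ^ 2 by positivity)
  have j3 := mul_le_mul_of_nonneg_left k3 (pow_nonneg hρ 3)
  linarith

theorem hB_cont (e ρ : ℝ) : ContinuousOn (hB e ρ) (Icc (-1) 1) := by
  unfold hB
  have h : ∀ s ∈ Icc (-1 : ℝ) 1, 3 + s ≠ 0 := fun s hs => by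
    have := hs.1
    linarith
  have h2 : ContinuousOn (fun s : ℝ => 1 / (3 + s)) (Icc (-1) 1) :=
    ContinuousOn.div continuousOn_const (by fun_prop) h
  have h3 : ContinuousOn (fun s : ℝ => Real.cos (Real.pi / 2 * s)) (Icc (-1) 1) := by fun_prop
  exact (((h3.const_smul e).add (h2.const_smul ρ)).pow 3).mul (h2.pow 5)

theorem hB_int {e ρ : ℝ} (he : 0 ≤ e) (hρ : 0 ≤ ρ) : ∫ s in (-1 : ℝ)..1, hB e ρ s ≤
    e ^ 3 * (41725 / 10000000) + 3 * e ^ 2 * ρ * (1913 / 1000000) +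
      3 * e * ρ ^ 2 * (11065 / 10000000) + ρ ^ 3 * (1115 / 1000000) := by
  have i1 : IntervalIntegrable (hB e ρ) volume (-1) 0 := by
    refine ContinuousOn.intervalIntegrable ?_
    rw [uIcc_of_le (by norm_num)]
    exact (hB_cont e ρ).mono (Icc_subset_Icc le_rfl zero_le_one)
  have i2 : IntervalIntegrable (hB e ρ) volume 0 1 := by
    refine ContinuousOn.intervalIntegrable ?_
    rw [uIcc_of_le (by norm_num)]
    exact (hB_cont e ρ).mono (Icc_subset_Icc (by norm_num) le_rfl)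
  have i3 : IntervalIntegrable (fun s => hB e ρ (-s)) volume 0 1 := by
    refine ContinuousOn.intervalIntegrable ?_
    rw [uIcc_of_le (by norm_num)]
    refine (hB_cont e ρ).comp continuousOn_neg fun s hs => ?_
    exact ⟨by linarith [hs.2], by linarith [hs.1]⟩
  rw [← intervalIntegral.integral_add_adjacent_intervals i1 i2]
  have h1 := intervalIntegral.integral_comp_neg (a := (0 : ℝ)) (b := 1) (hB e ρ)
  rw [neg_zero] at h1
  rw [← h1, ← intervalIntegral.integral_add i3 i2]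
  have c0 := pe_cont LB0
  have c1 := pe_cont LB1
  have c2 := pe_cont LB2
  have c3 := pe_cont LB3
  have h2 : ∫ s in (0 : ℝ)..1, (hB e ρ (-s) + hB e ρ s) ≤ ∫ s in (0 : ℝ)..1,
      (e ^ 3 * pe LB0 s + 3 * e ^ 2 * ρ * pe LB1 s +
      3 * e * ρ ^ 2 * pe LB2 s + ρ ^ 3 * pe LB3 s) := by
    refine intervalIntegral.integral_mono_on zero_le_one (i3.add i2)
      (Continuous.intervalIntegrable (by fun_prop) _ _) fun s hs => ?_
    rw [add_comm]
    exact hB_sum he hρ hs.1 hs.2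
  refine h2.trans ?_
  rw [intervalIntegral.integral_add (Continuous.intervalIntegrable (by fun_prop) _ _)
    (Continuous.intervalIntegrable (by fun_prop) _ _),
    intervalIntegral.integral_add (Continuous.intervalIntegrable (by fun_prop) _ _)
    (Continuous.intervalIntegrable (by fun_prop) _ _),
    intervalIntegral.integral_add (Continuous.intervalIntegrable (by fun_prop) _ _)
    (Continuous.intervalIntegrable (by fun_prop) _ _),
    intervalIntegral.integral_const_mul, intervalIntegral.integral_const_mul,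
    intervalIntegral.integral_const_mul, intervalIntegral.integral_const_mul,
    int_pe0, int_pe0, int_pe0, int_pe0]
  have k0 : (1 : ℝ) * pI 0 LB0 1 ≤ 41725 / 10000000 := by
    norm_num [pI, LB0]
  have k1 : (1 : ℝ) * pI 0 LB1 1 ≤ 1913 / 1000000 := by
    norm_num [pI, LB1]
  have k2 : (1 : ℝ) * pI 0 LB2 1 ≤ 11065 / 10000000 := by
    norm_num [pI, LB2]
  have k3 : (1 : ℝ) * pI 0 LB3 1 ≤ 1115 / 1000000 := by
    norm_num [pI, LB3]
  have j0 := mul_le_mul_of_nonneg_left k0 (pow_nonneg he 3)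
  have j1 := mul_le_mul_of_nonneg_left k1 (show 0 ≤ 3 * e ^ 2 * ρ by positivity)
  have j2 := mul_le_mul_of_nonneg_left k2 (show 0 ≤ 3 * e * ρ ^ 2 by positivity)
  have j3 := mul_le_mul_of_nonneg_left k3 (pow_nonneg hρ 3)
  linarith

/-- the dominating function of the second and third regions -/
noncomputable def gB (e r x : ℝ) : ℝ := (e * (|Real.sin x| / x) + r / x ^ 2) ^ 3 / x ^ 2

theorem gB_dom {ε : ℝ} (hε : 0 < ε) (hT : S_TF2) {r : ℝ}
    (hr : 2 * ε * (1.07 * zt ε) ≤ r) {x : ℝ} (hx : 0 < x) :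
    zt ε ^ 3 * (|cf ε x| ^ 3 / x ^ 2) ≤ gB (Real.exp (-ε)) r x := by
  obtain ⟨hz, hA, -, -, hC, -⟩ := hT ε hε
  have hE := (Real.exp_pos (-ε)).le
  have h2 : zt ε * |cf ε x| ≤ Real.exp (-ε) * (|Real.sin x| / x) + r / x ^ 2 := by
    have hm : zt ε * |cf ε x| = |zt ε * cf ε x| := by rw [abs_mul, abs_of_pos hz]
    rw [hm, hA x, Real.sinc_of_ne_zero hx.ne']
    refine (abs_add_le _ _).trans ?_
    have h3 : |Real.exp (-ε) * (Real.sin x / x)| = Real.exp (-ε) * (|Real.sin x| / x) := by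
      rw [abs_mul, abs_of_nonneg hE, abs_div, abs_of_pos hx]
    have h4 : |2 * ε * ck ε x| ≤ r / x ^ 2 := by
      rw [abs_mul, abs_of_pos (show 0 < 2 * ε by linarith), le_div_iff₀ (by positivity)]
      have h5 := hC x hx
      rw [le_div_iff₀ (by positivity)] at h5
      calc 2 * ε * |ck ε x| * x ^ 2 = 2 * ε * (|ck ε x| * x ^ 2) := by ring
        _ ≤ 2 * ε * (1.07 * zt ε) := mul_le_mul_of_nonneg_left h5 (by linarith)
        _ ≤ r := hr
    linarith
  have h3 : 0 ≤ zt ε * |cf ε x| := by positivity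
  have h4 := pow_le_pow_left₀ h3 h2 3
  have h5 : zt ε ^ 3 * (|cf ε x| ^ 3 / x ^ 2) = (zt ε * |cf ε x|) ^ 3 / x ^ 2 := by
    ring
  rw [h5, gB]
  exact div_le_div_of_nonneg_right h4 (by positivity)

theorem gB_sub {e r s : ℝ} (h0 : -1 ≤ s) (h1 : s ≤ 1) :
    gB e r (Real.pi / 2 * s + 3 * Real.pi / 2) =
      (2 / Real.pi) ^ 5 * hB e (2 / Real.pi * r) s := by
  have hp := Real.pi_pos
  have hs : 0 < 3 + s := by linarith
  have e1 : Real.pi / 2 * s + 3 * Real.pi / 2 = Real.pi / 2 * (3 + s) := by ring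
  have e2 : |Real.sin (Real.pi / 2 * s + 3 * Real.pi / 2)| = Real.cos (Real.pi / 2 * s) := by
    have e3 : Real.pi / 2 * s + 3 * Real.pi / 2 =
        Real.pi / 2 * s + Real.pi / 2 + Real.pi := by ring
    rw [e3, Real.sin_add_pi, Real.sin_add_pi_div_two, abs_neg, abs_of_nonneg]
    apply Real.cos_nonneg_of_neg_pi_div_two_le_of_le
    · nlinarith
    · nlinarith
  unfold gB hB
  rw [e2, e1]
  field_simp

theorem gB_int {e r : ℝ} (he : 0 ≤ e) (hr : 0 ≤ r) :
    ∫ x in Real.pi..(2 * Real.pi), gB e r x ≤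
      (2 / Real.pi) ^ 4 * (e ^ 3 * (41725 / 10000000) +
        3 * e ^ 2 * (2 / Real.pi * r) * (1913 / 1000000) +
        3 * e * (2 / Real.pi * r) ^ 2 * (11065 / 10000000) +
        (2 / Real.pi * r) ^ 3 * (1115 / 1000000)) := by
  have hp := Real.pi_pos
  have h1 := intervalIntegral.integral_comp_mul_add (a := (-1 : ℝ)) (b := 1) (gB e r)
    (c := Real.pi / 2) (by positivity) (3 * Real.pi / 2)
  rw [show Real.pi / 2 * -1 + 3 * Real.pi / 2 = Real.pi by ring,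
    show Real.pi / 2 * 1 + 3 * Real.pi / 2 = 2 * Real.pi by ring, smul_eq_mul] at h1
  have h2 : ∫ x in Real.pi..(2 * Real.pi), gB e r x =
      Real.pi / 2 * ∫ s in (-1 : ℝ)..1, gB e r (Real.pi / 2 * s + 3 * Real.pi / 2) := by
    rw [h1, ← mul_assoc, mul_inv_cancel₀ (by positivity), one_mul]
  have h3 : ∫ s in (-1 : ℝ)..1, gB e r (Real.pi / 2 * s + 3 * Real.pi / 2) =
      ∫ s in (-1 : ℝ)..1, (2 / Real.pi) ^ 5 * hB e (2 / Real.pi * r) s := by
    refine intervalIntegral.integral_congr fun s hs => ?_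
    rw [uIcc_of_le (by norm_num)] at hs
    exact gB_sub hs.1 hs.2
  rw [h2, h3, intervalIntegral.integral_const_mul, ← mul_assoc]
  have h4 : Real.pi / 2 * (2 / Real.pi) ^ 5 = (2 / Real.pi) ^ 4 := by
    field_simp
  rw [h4]
  exact mul_le_mul_of_nonneg_left (hB_int he (by positivity)) (by positivity)

theorem gB_int' {e r : ℝ} (he : 0 ≤ e) (hr : 0 ≤ r) :
    ∫ x in Real.pi..(2 * Real.pi), gB e r x ≤
      e ^ 3 * (68537 / 100000000) + 3 * e ^ 2 * r * (20005 / 100000000) +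
        3 * e * r ^ 2 * (7367 / 100000000) + r ^ 3 * (4727 / 100000000) := by
  have hp := Real.pi_pos
  refine (gB_int he hr).trans ?_
  obtain ⟨d, hd⟩ : ∃ d : ℝ, d = 2 / Real.pi := ⟨_, rfl⟩
  have hd0 : 0 ≤ d := by rw [hd]; positivity
  have hd1 : d ≤ 6366203 / 10000000 := by
    rw [hd, div_le_iff₀ hp]
    have := Real.pi_gt_d6
    norm_num at this ⊢
    linarith
  rw [← hd]
  have k4 := pow_le_pow_left₀ hd0 hd1 4
  have k5 := pow_le_pow_left₀ hd0 hd1 5
  have k6 := pow_le_pow_left₀ hd0 hd1 6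
  have k7 := pow_le_pow_left₀ hd0 hd1 7
  have l4 : d ^ 4 * (41725 / 10000000) ≤ 68537 / 100000000 := by
    refine (mul_le_mul_of_nonneg_right k4 (by norm_num)).trans ?_
    norm_num
  have l5 : d ^ 5 * (1913 / 1000000) ≤ 20005 / 100000000 := by
    refine (mul_le_mul_of_nonneg_right k5 (by norm_num)).trans ?_
    norm_num
  have l6 : d ^ 6 * (11065 / 10000000) ≤ 7367 / 100000000 := by
    refine (mul_le_mul_of_nonneg_right k6 (by norm_num)).trans ?_
    norm_num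
  have l7 : d ^ 7 * (1115 / 1000000) ≤ 4727 / 100000000 := by
    refine (mul_le_mul_of_nonneg_right k7 (by norm_num)).trans ?_
    norm_num
  have j0 := mul_le_mul_of_nonneg_left l4 (pow_nonneg he 3)
  have j1 := mul_le_mul_of_nonneg_left l5 (show 0 ≤ 3 * e ^ 2 * r by positivity)
  have j2 := mul_le_mul_of_nonneg_left l6 (show 0 ≤ 3 * e * r ^ 2 by positivity)
  have j3 := mul_le_mul_of_nonneg_left l7 (pow_nonneg hr 3)
  refine le_trans (le_of_eq ?_) (add_le_add (add_le_add (add_le_add j0 j1) j2) j3)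
  ring

/-! ## The region `[2π, ∞)` -/

theorem dinv (n : ℕ) {x : ℝ} (hx : x ≠ 0) :
    HasDerivAt (fun x : ℝ => x⁻¹ ^ (n + 1)) (-((n + 1) * x⁻¹ ^ (n + 2))) x := by
  have h := (hasDerivAt_inv hx).pow (n + 1)
  refine h.congr_deriv ?_
  rw [Nat.add_sub_cancel, ← inv_pow, pow_add x⁻¹ n 2]
  push_cast
  ring

/-- the antiderivatives -/
noncomputable def Pn (n : ℕ) (x : ℝ) : ℝ :=
  -(1 / (2 * (n + 1))) * x⁻¹ ^ (n + 1) - Real.sin (2 * x) / 4 * x⁻¹ ^ (n + 2) +
    ((n + 2) / 8) * ((Real.cos (2 * x) - 1) * x⁻¹ ^ (n + 3))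

theorem Pn_deriv (n : ℕ) {x : ℝ} (hx : x ≠ 0) : HasDerivAt (Pn n)
    (x⁻¹ ^ (n + 2) * Real.sin x ^ 2 +
      ((n + 2) * (n + 3) / 4) * Real.sin x ^ 2 * x⁻¹ ^ (n + 4)) x := by
  have h1 : HasDerivAt (fun x : ℝ => 2 * x) 2 x := by
    simpa using (hasDerivAt_id x).const_mul (2 : ℝ)
  have h2 := (dinv n hx).const_mul (-(1 / (2 * ((n : ℝ) + 1))))
  have h3 := (h1.sin.div_const 4).mul (dinv (n + 1) hx)
  have h4 := ((h1.cos.sub_const 1).mul (dinv (n + 2) hx)).const_mul (((n : ℝ) + 2) / 8)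
  have h5 := (h2.sub h3).add h4
  refine h5.congr_deriv ?_
  have e1 : Real.cos (2 * x) = 1 - 2 * Real.sin x ^ 2 := by
    rw [Real.cos_two_mul, Real.cos_sq']
    ring
  have hn : (n : ℝ) + 1 ≠ 0 := by positivity
  rw [e1]
  push_cast
  field_simp
  ring

theorem inv_tendsto (n : ℕ) : Tendsto (fun x : ℝ => x⁻¹ ^ (n + 1)) atTop (𝓝 0) := by
  have h := (tendsto_inv_atTop_zero (𝕜 := ℝ)).pow (n + 1)
  rwa [zero_pow (Nat.succ_ne_zero n)] at h

theorem bdd_tendsto (n : ℕ) {b : ℝ → ℝ} {M : ℝ} (hb : ∀ x, |b x| ≤ M) :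
    Tendsto (fun x : ℝ => b x * x⁻¹ ^ (n + 1)) atTop (𝓝 0) := by
  have h := (inv_tendsto n).const_mul M
  rw [mul_zero] at h
  refine squeeze_zero_norm' ?_ h
  filter_upwards [eventually_gt_atTop 0] with x hx
  rw [Real.norm_eq_abs, abs_mul, abs_of_pos (show 0 < x⁻¹ ^ (n + 1) by positivity)]
  exact mul_le_mul_of_nonneg_right (hb x) (by positivity)

theorem Pn_tendsto (n : ℕ) : Tendsto (Pn n) atTop (𝓝 0) := by
  have h1 := (inv_tendsto n).const_mul (-(1 / (2 * ((n : ℝ) + 1))))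
  have h2 := bdd_tendsto (n + 1) (b := fun x => Real.sin (2 * x) / 4) (M := 1) (fun x => by
    rw [abs_div, abs_of_pos (show (0 : ℝ) < 4 by norm_num)]
    have := Real.abs_sin_le_one (2 * x)
    linarith)
  have h3 := (bdd_tendsto (n + 2) (b := fun x => Real.cos (2 * x) - 1) (M := 2) (fun x => by
    have := Real.neg_one_le_cos (2 * x)
    have := Real.cos_le_one (2 * x)
    rw [abs_le]
    constructor <;> linarith)).const_mul (((n : ℝ) + 2) / 8)
  have h := (h1.sub h2).add h3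
  simp only [mul_zero, sub_zero, add_zero] at h
  exact h

theorem Pn_at (n : ℕ) : Pn n (2 * Real.pi) = -(1 / (2 * (n + 1))) * (2 * Real.pi)⁻¹ ^ (n + 1) := by
  have h1 : Real.sin (2 * (2 * Real.pi)) = 0 := by
    rw [Real.sin_two_mul, Real.sin_two_pi]
    ring
  have h2 : Real.cos (2 * (2 * Real.pi)) = 1 := by
    rw [Real.cos_two_mul, Real.cos_two_pi]
    norm_num
  rw [Pn, h1, h2]
  ring

theorem gB_tail {e r : ℝ} (he : 0 ≤ e) (hr : 0 ≤ r) {f : ℝ → ℝ}
    (hf : ∀ x, 0 < x → f x ≤ gB e r x) (hint : IntegrableOn f (Ioi (2 * Real.pi))) :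
    ∫ x in Ioi (2 * Real.pi), f x ≤ e ^ 3 * (8021 / 100000000) +
      3 * e ^ 2 * r * (1022 / 100000000) + 3 * e * r ^ 2 * (271 / 100000000) +
      r ^ 3 * (37 / 100000000) := by
  have hp := Real.pi_pos
  -- the antiderivative
  have hd : ∀ x ∈ Ici (2 * Real.pi), HasDerivAt (fun x => e ^ 3 * Pn 3 x + 3 * e ^ 2 * r * Pn 4 x +
      e * r ^ 2 * (-(1 / 2) * x⁻¹ ^ (5 + 1)) + r ^ 3 * (-(1 / 7) * x⁻¹ ^ (6 + 1)))
      (e ^ 3 * (x⁻¹ ^ (3 + 2) * Real.sin x ^ 2 +
        (((3 : ℕ) + 2) * ((3 : ℕ) + 3) / 4) * Real.sin x ^ 2 * x⁻¹ ^ (3 + 4)) +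
      3 * e ^ 2 * r * (x⁻¹ ^ (4 + 2) * Real.sin x ^ 2 +
        (((4 : ℕ) + 2) * ((4 : ℕ) + 3) / 4) * Real.sin x ^ 2 * x⁻¹ ^ (4 + 4)) +
      e * r ^ 2 * (-(1 / 2) * -(((5 : ℕ) + 1) * x⁻¹ ^ (5 + 2))) +
      r ^ 3 * (-(1 / 7) * -(((6 : ℕ) + 1) * x⁻¹ ^ (6 + 2)))) x := by
    intro x hx
    have hx0 : x ≠ 0 := by
      have : 2 * Real.pi ≤ x := hx
      exact (lt_of_lt_of_le (by positivity) this).ne'
    exact (((((Pn_deriv 3 hx0).const_mul (e ^ 3)).add
      ((Pn_deriv 4 hx0).const_mul (3 * e ^ 2 * r))).add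
      (((dinv 5 hx0).const_mul (-(1 / 2))).const_mul (e * r ^ 2))).add
      (((dinv 6 hx0).const_mul (-(1 / 7))).const_mul (r ^ 3)))
  have hpos : ∀ x ∈ Ioi (2 * Real.pi), 0 ≤ (e ^ 3 * (x⁻¹ ^ (3 + 2) * Real.sin x ^ 2 +
        (((3 : ℕ) + 2) * ((3 : ℕ) + 3) / 4) * Real.sin x ^ 2 * x⁻¹ ^ (3 + 4)) +
      3 * e ^ 2 * r * (x⁻¹ ^ (4 + 2) * Real.sin x ^ 2 +
        (((4 : ℕ) + 2) * ((4 : ℕ) + 3) / 4) * Real.sin x ^ 2 * x⁻¹ ^ (4 + 4)) +
      e * r ^ 2 * (-(1 / 2) * -(((5 : ℕ) + 1) * x⁻¹ ^ (5 + 2))) +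
      r ^ 3 * (-(1 / 7) * -(((6 : ℕ) + 1) * x⁻¹ ^ (6 + 2)))) := by
    intro x hx
    have hx0 : 0 < x := lt_trans (by positivity) hx
    have e1 : -(1 / 2 : ℝ) * -(((5 : ℕ) + 1) * x⁻¹ ^ (5 + 2)) = 3 * x⁻¹ ^ (5 + 2) := by
      push_cast
      ring
    have e2 : -(1 / 7 : ℝ) * -(((6 : ℕ) + 1) * x⁻¹ ^ (6 + 2)) = x⁻¹ ^ (6 + 2) := by
      push_cast
      ring
    rw [e1, e2]
    positivity
  have ht : Tendsto (fun x => e ^ 3 * Pn 3 x + 3 * e ^ 2 * r * Pn 4 x +
      e * r ^ 2 * (-(1 / 2) * x⁻¹ ^ (5 + 1)) + r ^ 3 * (-(1 / 7) * x⁻¹ ^ (6 + 1))) atTop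
      (𝓝 0) := by
    have h := ((((Pn_tendsto 3).const_mul (e ^ 3)).add
      ((Pn_tendsto 4).const_mul (3 * e ^ 2 * r))).add
      (((inv_tendsto 5).const_mul (-(1 / 2))).const_mul (e * r ^ 2))).add
      (((inv_tendsto 6).const_mul (-(1 / 7))).const_mul (r ^ 3))
    simp only [mul_zero, add_zero] at h
    exact h
  have hI := integral_Ioi_of_hasDerivAt_of_nonneg' hd hpos ht
  have hI2 := integrableOn_Ioi_deriv_of_nonneg' hd hpos ht
  have h1 : ∫ x in Ioi (2 * Real.pi), f x ≤ ∫ x in Ioi (2 * Real.pi),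
      (e ^ 3 * (x⁻¹ ^ (3 + 2) * Real.sin x ^ 2 +
        (((3 : ℕ) + 2) * ((3 : ℕ) + 3) / 4) * Real.sin x ^ 2 * x⁻¹ ^ (3 + 4)) +
      3 * e ^ 2 * r * (x⁻¹ ^ (4 + 2) * Real.sin x ^ 2 +
        (((4 : ℕ) + 2) * ((4 : ℕ) + 3) / 4) * Real.sin x ^ 2 * x⁻¹ ^ (4 + 4)) +
      e * r ^ 2 * (-(1 / 2) * -(((5 : ℕ) + 1) * x⁻¹ ^ (5 + 2))) +
      r ^ 3 * (-(1 / 7) * -(((6 : ℕ) + 1) * x⁻¹ ^ (6 + 2)))) := by
    refine setIntegral_mono_on hint hI2 measurableSet_Ioi fun x hx => ?_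
    have hx0 : 0 < x := lt_trans (by positivity) hx
    refine (hf x hx0).trans ?_
    obtain ⟨y, hy⟩ : ∃ y : ℝ, y = x⁻¹ := ⟨_, rfl⟩
    have hy0 : 0 < y := by rw [hy]; positivity
    have e1 : gB e r x = e ^ 3 * (|Real.sin x| ^ 3 * y ^ 5) +
        3 * e ^ 2 * r * (|Real.sin x| ^ 2 * y ^ 6) + 3 * e * r ^ 2 * (|Real.sin x| * y ^ 7) +
        r ^ 3 * y ^ 8 := by
      rw [gB, hy]
      field_simp
      ring
    rw [e1, ← hy]
    have hs0 := abs_nonneg (Real.sin x)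
    have hs1 := Real.abs_sin_le_one x
    have hs2 : |Real.sin x| ^ 2 = Real.sin x ^ 2 := sq_abs _
    have hs3 : |Real.sin x| ^ 3 ≤ Real.sin x ^ 2 := by
      rw [← hs2, pow_succ]
      exact mul_le_of_le_one_right (by positivity) hs1
    have k0 : |Real.sin x| ^ 3 * y ^ 5 ≤ Real.sin x ^ 2 * y ^ 5 :=
      mul_le_mul_of_nonneg_right hs3 (by positivity)
    have k2 : |Real.sin x| * y ^ 7 ≤ 1 * y ^ 7 := mul_le_mul_of_nonneg_right hs1 (by positivity)
    have j0 := mul_le_mul_of_nonneg_left k0 (pow_nonneg he 3)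
    have j2 := mul_le_mul_of_nonneg_left k2 (show 0 ≤ 3 * e * r ^ 2 by positivity)
    have m0 : 0 ≤ e ^ 3 * ((((3 : ℕ) + 2) * ((3 : ℕ) + 3) / 4) * Real.sin x ^ 2 * y ^ (3 + 4)) := by
      positivity
    have m1 : 0 ≤ 3 * e ^ 2 * r *
        ((((4 : ℕ) + 2) * ((4 : ℕ) + 3) / 4) * Real.sin x ^ 2 * y ^ (4 + 4)) := by
      positivity
    rw [hs2]
    push_cast at m0 m1 ⊢
    linarith
  refine h1.trans ?_
  rw [hI, Pn_at, Pn_at]
  obtain ⟨y, hy⟩ : ∃ y : ℝ, y = (2 * Real.pi)⁻¹ := ⟨_, rfl⟩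
  have hy0 : 0 ≤ y := by rw [hy]; positivity
  have hy1 : y ≤ 159156 / 1000000 := by
    rw [hy, inv_le_comm₀ (by positivity) (by norm_num)]
    have := Real.pi_gt_d6
    norm_num at this ⊢
    linarith
  rw [← hy]
  have k4 := pow_le_pow_left₀ hy0 hy1 4
  have k5 := pow_le_pow_left₀ hy0 hy1 5
  have k6 := pow_le_pow_left₀ hy0 hy1 6
  have k7 := pow_le_pow_left₀ hy0 hy1 7
  have l4 : 1 / 8 * y ^ 4 ≤ 8021 / 100000000 := by
    refine (mul_le_mul_of_nonneg_left k4 (by norm_num)).trans ?_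
    norm_num
  have l5 : 1 / 10 * y ^ 5 ≤ 1022 / 100000000 := by
    refine (mul_le_mul_of_nonneg_left k5 (by norm_num)).trans ?_
    norm_num
  have l6 : 1 / 6 * y ^ 6 ≤ 271 / 100000000 := by
    refine (mul_le_mul_of_nonneg_left k6 (by norm_num)).trans ?_
    norm_num
  have l7 : 1 / 7 * y ^ 7 ≤ 37 / 100000000 := by
    refine (mul_le_mul_of_nonneg_left k7 (by norm_num)).trans ?_
    norm_num
  have j0 := mul_le_mul_of_nonneg_left l4 (pow_nonneg he 3)
  have j1 := mul_le_mul_of_nonneg_left l5 (show 0 ≤ 3 * e ^ 2 * r by positivity)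
  have j2 := mul_le_mul_of_nonneg_left l6 (show 0 ≤ 3 * e * r ^ 2 by positivity)
  have j3 := mul_le_mul_of_nonneg_left l7 (pow_nonneg hr 3)
  refine le_trans (le_of_eq ?_) (add_le_add (add_le_add (add_le_add j0 j1) j2) j3)
  push_cast
  ring

/-! ## Conclusion -/

theorem t_TF15 : S_TF15 := by
  intro hT ε hε0 hε1
  have hε0' : (49 / 250 : ℝ) ≤ ε := by
    norm_num at hε0 ⊢
    linarith
  have hε : 0 < ε := by linarith
  have hz := (hT ε hε).1
  have hclaim : (0 : ℝ) ≤ 0.00148 + 0.0079 * ε ^ 2 := by positivity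
  unfold KK3
  by_cases hint : IntegrableOn (fun x => |cf ε x| ^ 3 / x ^ 2) (Ioi (12 / 5 : ℝ))
  swap
  · rw [integral_undef hint]
    exact hclaim
  have hp1 : (3.14159 : ℝ) < Real.pi := by
    have := Real.pi_gt_d6
    linarith
  have hp := Real.pi_pos
  have hle : (12 / 5 : ℝ) ≤ Real.pi := by
    norm_num at hp1
    linarith
  have hle2 : Real.pi ≤ 2 * Real.pi := by linarith
  have hint2 := hint.mono_set (Ioi_subset_Ioi hle)
  have hint3 := hint2.mono_set (Ioi_subset_Ioi hle2)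
  have hE := (Real.exp_pos (-ε)).le
  have hzup := zt_up hε.le
  have hzlo := zt_lo hε.le
  obtain ⟨r, hr⟩ : ∃ r : ℝ, r = 214 / 100 * ε * (1 - ε / 3 + ε ^ 2 / 10) := ⟨_, rfl⟩
  have hzp : 0 < 1 - ε / 3 + ε ^ 2 / 10 := lt_of_lt_of_le hz hzup
  have hr0 : 0 ≤ r := by
    rw [hr]
    positivity
  have hr1 : 2 * ε * (1.07 * zt ε) ≤ r := by
    rw [hr]
    have := mul_le_mul_of_nonneg_left hzup (show 0 ≤ 214 / 100 * ε by positivity)
    norm_num at this ⊢
    linarith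
  -- the three regions
  have A := regA hε hT hint
  have B : zt ε ^ 3 * ∫ x in Real.pi..(2 * Real.pi), |cf ε x| ^ 3 / x ^ 2 ≤
      Real.exp (-ε) ^ 3 * (68537 / 100000000) + 3 * Real.exp (-ε) ^ 2 * r * (20005 / 100000000) +
        3 * Real.exp (-ε) * r ^ 2 * (7367 / 100000000) + r ^ 3 * (4727 / 100000000) := by
    refine le_trans ?_ (gB_int' hE hr0)
    rw [← intervalIntegral.integral_const_mul]
    refine intervalIntegral.integral_mono_on hle2 ?_ ?_ ?_
    · refine IntervalIntegrable.const_mul ?_ _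
      rw [intervalIntegrable_iff_integrableOn_Ioc_of_le hle2]
      exact hint2.mono_set Ioc_subset_Ioi_self
    · refine ContinuousOn.intervalIntegrable ?_
      rw [uIcc_of_le hle2]
      unfold gB
      have hx0 : ∀ x ∈ Icc Real.pi (2 * Real.pi), x ≠ 0 := fun x hx =>
        (lt_of_lt_of_le hp hx.1).ne'
      have hx2 : ∀ x ∈ Icc Real.pi (2 * Real.pi), x ^ 2 ≠ 0 := fun x hx =>
        pow_ne_zero 2 (hx0 x hx)
      have c1 : ContinuousOn (fun x : ℝ => |Real.sin x| / x) (Icc Real.pi (2 * Real.pi)) :=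
        ContinuousOn.div (by fun_prop) continuousOn_id hx0
      have c2 : ContinuousOn (fun x : ℝ => r / x ^ 2) (Icc Real.pi (2 * Real.pi)) :=
        ContinuousOn.div continuousOn_const (by fun_prop) hx2
      exact ContinuousOn.div (((c1.const_smul (Real.exp (-ε))).add c2).pow 3) (by fun_prop) hx2
    · intro x hx
      exact gB_dom hε hT hr1 (lt_of_lt_of_le hp hx.1)
  have D : zt ε ^ 3 * ∫ x in Ioi (2 * Real.pi), |cf ε x| ^ 3 / x ^ 2 ≤
      Real.exp (-ε) ^ 3 * (8021 / 100000000) + 3 * Real.exp (-ε) ^ 2 * r * (1022 / 100000000) +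
        3 * Real.exp (-ε) * r ^ 2 * (271 / 100000000) + r ^ 3 * (37 / 100000000) := by
    rw [← MeasureTheory.integral_const_mul]
    exact gB_tail hE hr0 (fun x hx => gB_dom hε hT hr1 hx) (hint3.const_mul _)
  have hsplit : ∫ x in Ioi (12 / 5 : ℝ), |cf ε x| ^ 3 / x ^ 2 =
      (∫ x in (12 / 5 : ℝ)..Real.pi, |cf ε x| ^ 3 / x ^ 2) +
      ((∫ x in Real.pi..(2 * Real.pi), |cf ε x| ^ 3 / x ^ 2) +
        ∫ x in Ioi (2 * Real.pi), |cf ε x| ^ 3 / x ^ 2) := by
    rw [intervalIntegral.integral_interval_add_Ioi hint2 hint3,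
      intervalIntegral.integral_interval_add_Ioi hint hint2]
  -- the polynomial inequality
  obtain ⟨e, he⟩ : ∃ e : ℝ, e = Real.exp (-ε) := ⟨_, rfl⟩
  obtain ⟨P, hP⟩ : ∃ P : ℝ, P = 1 - ε + ε ^ 2 / 2 - ε ^ 3 / 6 + ε ^ 4 / 24 := ⟨_, rfl⟩
  have heP : e ≤ P := by
    rw [he, hP]
    exact exp4 hε.le
  have he0 : 0 ≤ e := by rw [he]; exact hE
  rw [← he] at A B D
  have hF := certF hε0' hε1
  rw [← hr, ← hP] at hF
  obtain ⟨m, hm⟩ : ∃ m : ℝ, m = 1 - ε / 3 + ε ^ 2 / 10 - ε ^ 3 / 42 := ⟨_, rfl⟩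
  rw [← hm] at hF hzlo
  have hm0 : 0 ≤ m := by
    rw [hm]
    have h2 : ε ^ 2 ≤ 1 / 4 := by nlinarith
    have h3 : ε ^ 3 ≤ 1 / 8 := by nlinarith [sq_nonneg ε]
    have h4 := sq_nonneg ε
    linarith
  have hm3 : m ^ 3 * (148 / 100000 + 79 / 10000 * ε ^ 2) ≤
      zt ε ^ 3 * (148 / 100000 + 79 / 10000 * ε ^ 2) :=
    mul_le_mul_of_nonneg_right (pow_le_pow_left₀ hm0 hzlo 3) (by positivity)
  have p3 := mul_le_mul_of_nonneg_right (pow_le_pow_left₀ he0 heP 3)
    (show (0 : ℝ) ≤ 136258 / 100000000 by norm_num)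
  have p2 := mul_le_mul_of_nonneg_right (pow_le_pow_left₀ he0 heP 2)
    (show 0 ≤ 3 * (2 * ε) * (446 / 1000000) + 3 * r * (21027 / 100000000) by positivity)
  have p1 := mul_le_mul_of_nonneg_right heP
    (show 0 ≤ 3 * (2 * ε) ^ 2 * (34905 / 100000000) + 3 * r ^ 2 * (7638 / 100000000) by
      positivity)
  have hfin : zt ε ^ 3 * (∫ x in Ioi (12 / 5 : ℝ), |cf ε x| ^ 3 / x ^ 2) ≤
      zt ε ^ 3 * (148 / 100000 + 79 / 10000 * ε ^ 2) := by
    rw [hsplit, mul_add, mul_add]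
    linarith
  have h3 := le_of_mul_le_mul_left hfin (pow_pos hz 3)
  norm_num at h3 ⊢
  linarith

end Pool.Agent.H331.TF15
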