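import Pool.Agent.H770.GS.TA

/-!
# TA-1: Gaussian smoothing preserves the class `P 0`
-/

set_option autoImplicit false

open MeasureTheory Set intervalIntegral Filter Topology

namespace Pool.Agent.H331.TA

open Pool.Agent.H770.GS

theorem gs_integrable {τ : ℝ} (hτ : 0 < τ) : Integrable (gs τ) := by
  have hb : 0 < (2 * τ ^ 2)⁻¹ := by positivity
  have h := (integrable_exp_neg_mul_sq hb).const_mul (1 / Real.sqrt (2 * Real.pi * τ ^ 2))
  have e : gs τ = fun x : ℝ => 1 / Real.sqrt (2 * Real.pi * τ ^ 2) *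
      Real.exp (-(2 * τ ^ 2)⁻¹ * x ^ 2) := by
    funext x
    unfold gs
    rw [show -x ^ 2 / (2 * τ ^ 2) = -(2 * τ ^ 2)⁻¹ * x ^ 2 by rw [div_eq_mul_inv]; ring]
  rw [e]
  exact h

theorem kg_deriv (τ x : ℝ) :
    HasDerivAt (kg τ) (1 / τ ^ 2 * gs τ x - x / τ ^ 2 * kg τ x) x := by
  have h1 : HasDerivAt (fun x : ℝ => x / τ ^ 2) (1 / τ ^ 2) x := (hasDerivAt_id x).div_const _
  have h2 := h1.mul (gs_deriv τ x)
  refine h2.congr_deriv ?_
  ring

/-- the tail of the Gaussian: `gs τ R * R ≤ c / R` -/
theorem gs_tail {τ R : ℝ} (hτ : 0 < τ) (hR : 0 < R) :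
    gs τ R * R ≤ (1 / Real.sqrt (2 * Real.pi * τ ^ 2)) * (2 * τ ^ 2) * R⁻¹ := by
  unfold gs
  have h1 : Real.exp (-R ^ 2 / (2 * τ ^ 2)) * R ≤ 2 * τ ^ 2 * R⁻¹ := by
    have h2 : R ^ 2 / (2 * τ ^ 2) ≤ Real.exp (R ^ 2 / (2 * τ ^ 2)) := by
      have := Real.add_one_le_exp (R ^ 2 / (2 * τ ^ 2))
      linarith
    have h3 : Real.exp (-R ^ 2 / (2 * τ ^ 2)) = (Real.exp (R ^ 2 / (2 * τ ^ 2)))⁻¹ := by
      rw [← Real.exp_neg]
      congr 1
      ring
    rw [h3]
    have h4 : 0 < R ^ 2 / (2 * τ ^ 2) := by positivity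
    have h5 : (Real.exp (R ^ 2 / (2 * τ ^ 2)))⁻¹ ≤ (R ^ 2 / (2 * τ ^ 2))⁻¹ :=
      inv_anti₀ h4 h2
    calc (Real.exp (R ^ 2 / (2 * τ ^ 2)))⁻¹ * R ≤ (R ^ 2 / (2 * τ ^ 2))⁻¹ * R :=
          mul_le_mul_of_nonneg_right h5 hR.le
      _ = 2 * τ ^ 2 * R⁻¹ := by
          field_simp
  have h6 : (0:ℝ) ≤ 1 / Real.sqrt (2 * Real.pi * τ ^ 2) := by positivity
  have h7 := mul_le_mul_of_nonneg_left h1 h6
  calc 1 / Real.sqrt (2 * Real.pi * τ ^ 2) * Real.exp (-R ^ 2 / (2 * τ ^ 2)) * R
      = 1 / Real.sqrt (2 * Real.pi * τ ^ 2) * (Real.exp (-R ^ 2 / (2 * τ ^ 2)) * R) := by ring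
    _ ≤ 1 / Real.sqrt (2 * Real.pi * τ ^ 2) * (2 * τ ^ 2 * R⁻¹) := h7
    _ = _ := by ring

/-- integration by parts on `[-R, R]` -/
theorem parts {k : ℝ → ℝ} (hk : Continuous k) (τ R v : ℝ) :
    ∫ u in (-R)..R, gs τ u * k (v + u) = gs τ R * (∫ u in (-R)..R, k (v + u)) +
      ∫ z in (0:ℝ)..R, kg τ z * ∫ u in (-z)..z, k (v + u) := by
  have hc : Continuous fun u => k (v + u) := by fun_prop
  have hg := gs_cont τ
  have hkg := kg_cont τ
  have hs := continuous_sym hc
  have h1 : ∫ z in (0:ℝ)..R, (gs τ z * k (v + z) + gs τ (-z) * k (v + -z)) =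
      ∫ u in (-R)..R, gs τ u * k (v + u) := by
    rw [intervalIntegral.integral_eq_sub_of_hasDerivAt
      (f := fun s => ∫ u in (-s)..s, gs τ u * k (v + u))]
    · simp only [neg_zero, intervalIntegral.integral_same, sub_zero]
    · intro z _
      exact hasDerivAt_sym (g := fun u => gs τ u * k (v + u)) (by fun_prop) z
    · exact Continuous.intervalIntegrable (by fun_prop) _ _
  have h2 : ∫ z in (0:ℝ)..R, ((gs τ z * k (v + z) + gs τ (-z) * k (v + -z)) -
      kg τ z * ∫ u in (-z)..z, k (v + u)) = gs τ R * (∫ u in (-R)..R, k (v + u)) := by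
    rw [intervalIntegral.integral_eq_sub_of_hasDerivAt
      (f := fun s => gs τ s * ∫ u in (-s)..s, k (v + u))]
    · simp only [neg_zero, intervalIntegral.integral_same, mul_zero, sub_zero]
    · intro z _
      refine ((gs_deriv τ z).mul (hasDerivAt_sym hc z)).congr_deriv ?_
      rw [gs_even]
      ring
    · exact Continuous.intervalIntegrable (by fun_prop) _ _
  rw [intervalIntegral.integral_sub (Continuous.intervalIntegrable (by fun_prop) _ _)
    (Continuous.intervalIntegrable (by fun_prop) _ _), h1] at h2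
  linarith

theorem smul_int {k : ℝ → ℝ} {C : ℝ} (hk : Continuous k) (hC : ∀ x, |k x| ≤ C) {τ : ℝ}
    (hτ : 0 < τ) (v : ℝ) : Integrable fun u => gs τ u * k (v + u) := by
  have h := (gs_integrable hτ).mul_const C
  refine h.mono' ?_ (Eventually.of_forall fun u => ?_)
  · have hg := gs_cont τ
    exact Continuous.aestronglyMeasurable (by fun_prop)
  · rw [norm_mul, Real.norm_eq_abs, Real.norm_eq_abs, abs_of_nonneg (gs_nonneg τ u)]
    exact mul_le_mul_of_nonneg_left (hC _) (gs_nonneg τ u)

/-- **TA-1** -/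
theorem gauss : S_gauss := by
  intro k C hk hC τ hτ
  have hkc := hk.cont
  have hg := gs_cont τ
  have hkg := kg_cont τ
  have hC0 : 0 ≤ C := le_trans (abs_nonneg _) (hC 0)
  refine ⟨?_, ?_, ?_⟩
  · -- continuity
    refine continuous_of_dominated (bound := fun u => gs τ u * C) ?_ ?_
      ((gs_integrable hτ).mul_const C) ?_
    · intro v
      exact Continuous.aestronglyMeasurable (by fun_prop)
    · intro v
      refine Eventually.of_forall fun u => ?_
      rw [norm_mul, Real.norm_eq_abs, Real.norm_eq_abs, abs_of_nonneg (gs_nonneg τ u)]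
      exact mul_le_mul_of_nonneg_left (hC _) (gs_nonneg τ u)
    · refine Eventually.of_forall fun u => ?_
      fun_prop
  · -- oddness
    intro v
    have h1 := integral_neg_eq_self (fun u => gs τ u * k (-v + u)) volume
    rw [← h1, ← MeasureTheory.integral_neg]
    refine integral_congr_ae (Eventually.of_forall fun u => ?_)
    simp only
    rw [gs_even, show -v + -u = -(v + u) by ring, hk.odd]
    ring
  · -- monotonicity
    intro v v' hv hvv _
    have hv' : 0 < v' := lt_of_lt_of_le hv hvv
    have hc : ∀ x, Continuous fun u => k (x + u) := fun x => by fun_prop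
    have hsv := continuous_sym (hc v)
    have hsv' := continuous_sym (hc v')
    have key : ∀ R : ℝ, 0 < R →
        -(2 * C * (v + v') * ((1 / Real.sqrt (2 * Real.pi * τ ^ 2)) * (2 * τ ^ 2) * R⁻¹)) ≤
        v' * (∫ u in (-R)..R, gs τ u * k (v + u)) - v * ∫ u in (-R)..R, gs τ u * k (v' + u) := by
      intro R hR
      rw [parts hkc, parts hkc]
      have h1 : 0 ≤ ∫ z in (0:ℝ)..R, kg τ z * (v' * (∫ u in (-z)..z, k (v + u)) -
          v * ∫ u in (-z)..z, k (v' + u)) := by
        refine uni_main hR hkg (fun z _ _ => kg_deriv τ z) (by fun_prop) ?_ ?_ ?_ (by fun_prop) ?_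
        · intro z hz _
          have h2 : 0 ≤ z * (z / τ ^ 2 * (z / τ ^ 2 * gs τ z)) := by
            have := gs_nonneg τ z
            positivity
          have h3 : z * (1 / τ ^ 2 * gs τ z - z / τ ^ 2 * kg τ z) =
              kg τ z - z * (z / τ ^ 2 * (z / τ ^ 2 * gs τ z)) := by
            unfold kg
            ring
          rw [h3]
          linarith
        · unfold kg
          have := gs_nonneg τ R
          positivity
        · intro z hz _
          unfold kg
          have := gs_nonneg τ z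
          positivity
        · intro z hz _
          have h := parab2 hk (b := 1) zero_le_one hz hv hvv
          simp only [one_mul] at h
          have e2 : ∫ s in (0:ℝ)..z, s * (v' * (∫ u in (-s)..s, k (v + u)) -
                v * ∫ u in (-s)..s, k (v' + u)) =
              v' * (∫ s in (0:ℝ)..z, s * ∫ u in (-s)..s, k (v + u)) -
                v * ∫ s in (0:ℝ)..z, s * ∫ u in (-s)..s, k (v' + u) := by
            rw [← intervalIntegral.integral_const_mul, ← intervalIntegral.integral_const_mul,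
              ← intervalIntegral.integral_sub]
            · refine intervalIntegral.integral_congr fun z _ => ?_
              ring
            all_goals exact Continuous.intervalIntegrable (by fun_prop) _ _
          rw [e2]
          linarith
      have e1 : ∫ z in (0:ℝ)..R, kg τ z * (v' * (∫ u in (-z)..z, k (v + u)) -
          v * ∫ u in (-z)..z, k (v' + u)) =
          v' * (∫ z in (0:ℝ)..R, kg τ z * ∫ u in (-z)..z, k (v + u)) -
            v * ∫ z in (0:ℝ)..R, kg τ z * ∫ u in (-z)..z, k (v' + u) := by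
        rw [← intervalIntegral.integral_const_mul, ← intervalIntegral.integral_const_mul,
          ← intervalIntegral.integral_sub]
        · refine intervalIntegral.integral_congr fun z _ => ?_
          ring
        all_goals exact Continuous.intervalIntegrable (by fun_prop) _ _
      rw [e1] at h1
      have hb : ∀ x, |∫ u in (-R)..R, k (x + u)| ≤ C * (2 * R) := by
        intro x
        have h2 := intervalIntegral.norm_integral_le_of_norm_le_const (a := -R) (b := R)
          (f := fun u => k (x + u)) (C := C) (fun u _ => by rw [Real.norm_eq_abs]; exact hC _)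
        rw [Real.norm_eq_abs, show R - -R = 2 * R by ring, abs_of_pos (by linarith : 0 < 2 * R)] at h2
        exact h2
      have h4 := (abs_le.1 (hb v)).1
      have h5 := (abs_le.1 (hb v')).2
      have h6 : -(C * (2 * R) * (v + v')) ≤ v' * (∫ u in (-R)..R, k (v + u)) -
          v * ∫ u in (-R)..R, k (v' + u) := by
        have h7 := mul_le_mul_of_nonneg_left h4 hv'.le
        have h8 := mul_le_mul_of_nonneg_left h5 hv.le
        nlinarith
      have h9 := mul_le_mul_of_nonneg_left h6 (gs_nonneg τ R)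
      have h10 := mul_le_mul_of_nonneg_left (gs_tail hτ hR)
        (show 0 ≤ 2 * C * (v + v') by positivity)
      nlinarith
    have hlim : ∀ x, Tendsto (fun R : ℝ => ∫ u in (-R)..R, gs τ u * k (x + u)) atTop
        (𝓝 (∫ u, gs τ u * k (x + u))) := fun x =>
      intervalIntegral_tendsto_integral (smul_int hkc hC hτ x) tendsto_neg_atTop_atBot tendsto_id
    have hl : Tendsto (fun R : ℝ => v' * (∫ u in (-R)..R, gs τ u * k (v + u)) -
        v * ∫ u in (-R)..R, gs τ u * k (v' + u)) atTop
        (𝓝 (v' * (∫ u, gs τ u * k (v + u)) - v * ∫ u, gs τ u * k (v' + u))) :=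
      ((hlim v).const_mul v').sub ((hlim v').const_mul v)
    have hz : Tendsto (fun R : ℝ =>
        -(2 * C * (v + v') * ((1 / Real.sqrt (2 * Real.pi * τ ^ 2)) * (2 * τ ^ 2) * R⁻¹))) atTop
        (𝓝 0) := by
      have h1 := ((tendsto_inv_atTop_zero (𝕜 := ℝ)).const_mul
        ((1 / Real.sqrt (2 * Real.pi * τ ^ 2)) * (2 * τ ^ 2))).const_mul (2 * C * (v + v'))
      have h2 := h1.neg
      simpa only [mul_zero, neg_zero] using h2
    have h := le_of_tendsto_of_tendsto hz hl (by
      filter_upwards [eventually_gt_atTop (0:ℝ)] with R hR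
      exact key R hR)
    linarith

end Pool.Agent.H331.TA
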