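import Pool.Agent.H867.FT.Gen6

/-!
F-finite fields have finite `p`-bases (`S_PBE`).
-/

set_option autoImplicit false

namespace Pool.Agent.H331.FT867PBE

open Polynomial Pool.Agent.H867.FT

/-- the monomials with exponents `< p` -/
def mono (p : ℕ) {k : Type} [Field k] {s : ℕ} (t : Fin s → k) (a : Fin s → Fin p) : k :=
  ∏ i, t i ^ (a i : ℕ)

lemma mono_cons (p : ℕ) {k : Type} [Field k] {s : ℕ} (t : Fin s → k) (u : k)
    (a : Fin (s + 1) → Fin p) :
    mono p (Fin.cons u t : Fin (s + 1) → k) a = mono p t (fun i => a i.succ) * u ^ (a 0 : ℕ) := by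
  unfold mono
  rw [Fin.prod_univ_succ, Fin.cons_zero, mul_comm]
  congr 1

/-- one more element -/
lemma step (p : ℕ) [hp : Fact p.Prime] (k : Type) [Field k] [CharP k p] (s : ℕ) (t : Fin s → k)
    (E : IntermediateField (frobenius k p).fieldRange k)
    (hli : LinearIndependent (frobenius k p).fieldRange (mono p t))
    (hsp : Submodule.span (frobenius k p).fieldRange (Set.range (mono p t)) =
      Subalgebra.toSubmodule E.toSubalgebra)
    (u : k) (hu : u ∉ E) :
    ∃ E' : IntermediateField (frobenius k p).fieldRange k,
      LinearIndependent (frobenius k p).fieldRange (mono p (Fin.cons u t : Fin (s + 1) → k)) ∧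
      Submodule.span (frobenius k p).fieldRange
        (Set.range (mono p (Fin.cons u t : Fin (s + 1) → k))) =
        Subalgebra.toSubmodule E'.toSubalgebra := by
  have hinj : Function.Injective (frobenius k p) := (frobenius k p).injective
  obtain ⟨c, hc⟩ : ∃ c : E, (c : k) = u ^ p :=
    ⟨⟨u ^ p, E.algebraMap_mem ⟨u ^ p, u, rfl⟩⟩, rfl⟩
  have hirr : Irreducible (X ^ p - C c : E[X]) := by
    refine X_pow_sub_C_irreducible_of_prime hp.out fun b hb => hu ?_
    have h1 : (b : k) ^ p = u ^ p := by
      rw [← hc, ← hb]
      rfl
    have h2 : (b : k) = u := hinj h1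
    rw [← h2]
    exact b.2
  have hmon : (X ^ p - C c : E[X]).Monic := monic_X_pow_sub_C c hp.out.ne_zero
  have hev : aeval u (X ^ p - C c : E[X]) = 0 := by
    rw [map_sub, map_pow, aeval_X, aeval_C, sub_eq_zero]
    exact hc.symm
  have hmin : minpoly E u = X ^ p - C c :=
    (minpoly.eq_of_irreducible_of_monic hirr hev hmon).symm
  have hdeg : (minpoly E u).natDegree = p := by rw [hmin, natDegree_X_pow_sub_C]
  have hint : IsIntegral E u := ⟨X ^ p - C c, hmon, hev⟩
  have hli1 : LinearIndependent E (fun j : Fin p => u ^ (j : ℕ)) := by
    have h1 := linearIndependent_pow (K := E) u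
    rw [hdeg] at h1
    exact h1
  have hmem : ∀ a, mono p t a ∈ E := by
    intro a
    have h1 : mono p t a ∈ Submodule.span (frobenius k p).fieldRange (Set.range (mono p t)) :=
      Submodule.subset_span ⟨a, rfl⟩
    rw [hsp] at h1
    exact h1
  have hli2 : LinearIndependent (frobenius k p).fieldRange
      (fun a : Fin s → Fin p => (⟨mono p t a, hmem a⟩ : E)) := by
    refine LinearIndependent.of_comp E.val.toLinearMap ?_
    exact hli
  have hli3 := linearIndependent_smul hli2 hli1
  refine ⟨(IntermediateField.adjoin E {u}).restrictScalars _, ?_, ?_⟩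
  · have he : Function.Injective (fun a : Fin (s + 1) → Fin p =>
        ((fun i : Fin s => a i.succ, a 0) : (Fin s → Fin p) × Fin p)) := by
      intro a b hab
      have h1 : (fun i : Fin s => a i.succ) = fun i : Fin s => b i.succ := congrArg Prod.fst hab
      have h2 : a 0 = b 0 := congrArg Prod.snd hab
      funext i
      refine Fin.cases h2 (fun j => ?_) i
      exact congrFun h1 j
    have h3 := hli3.comp _ he
    have h4 : ((fun q : (Fin s → Fin p) × Fin p => (⟨mono p t q.1, hmem q.1⟩ : E) • u ^ (q.2 : ℕ)) ∘
        (fun a : Fin (s + 1) → Fin p =>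
          ((fun i : Fin s => a i.succ, a 0) : (Fin s → Fin p) × Fin p))) =
        mono p (Fin.cons u t : Fin (s + 1) → k) := by
      funext a
      rw [mono_cons]
      rfl
    rw [← h4]
    exact h3
  · apply le_antisymm
    · rw [Submodule.span_le]
      rintro _ ⟨a, rfl⟩
      change mono p (Fin.cons u t : Fin (s + 1) → k) a ∈ IntermediateField.adjoin E {u}
      rw [mono_cons]
      exact mul_mem ((IntermediateField.adjoin E {u}).algebraMap_mem ⟨_, hmem _⟩)
        (pow_mem (IntermediateField.subset_adjoin E {u} (Set.mem_singleton u)) _)
    · intro x hx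
      have hx' : x ∈ IntermediateField.adjoin E {u} := hx
      obtain ⟨f, hf, hfx⟩ := (IntermediateField.adjoin.powerBasis hint).exists_eq_aeval ⟨x, hx'⟩
      rw [IntermediateField.adjoin.powerBasis_dim, hdeg] at hf
      rw [IntermediateField.adjoin.powerBasis_gen] at hfx
      have hfx2 : x = aeval u f := by
        have h1 := congrArg (fun z : IntermediateField.adjoin E {u} => (z : k)) hfx
        simp only at h1
        rw [h1]
        have h2 := aeval_algHom_apply (IntermediateField.adjoin E {u}).val
          (IntermediateField.AdjoinSimple.gen E u) f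
        exact h2.symm
      rw [hfx2, aeval_eq_sum_range' hf]
      refine Submodule.sum_mem _ fun j hj => ?_
      rw [Finset.mem_range] at hj
      have h1 : ((f.coeff j : E) : k) ∈ Submodule.span (frobenius k p).fieldRange
          (Set.range (mono p t)) := by
        rw [hsp]
        exact (f.coeff j).2
      have h2 : Submodule.span (frobenius k p).fieldRange (Set.range (mono p t)) ≤
          (Submodule.span (frobenius k p).fieldRange
            (Set.range (mono p (Fin.cons u t : Fin (s + 1) → k)))).comap
          (LinearMap.mulRight (frobenius k p).fieldRange (u ^ j)) := by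
        rw [Submodule.span_le]
        rintro _ ⟨a, rfl⟩
        change mono p t a * u ^ j ∈ Submodule.span (frobenius k p).fieldRange
            (Set.range (mono p (Fin.cons u t : Fin (s + 1) → k)))
        refine Submodule.subset_span ⟨Fin.cons ⟨j, hj⟩ a, ?_⟩
        rw [mono_cons]
        rfl
      exact h2 h1

theorem pbe : Pool.Agent.H867.FT.S_PBE := by
  intro p hp k _ _ hfin
  have hfd : Module.Finite (frobenius k p).fieldRange k := by
    have h1 : ((algebraMap (frobenius k p).fieldRange k).comp
        (frobenius k p).rangeRestrictField).Finite := hfin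
    exact RingHom.finite_algebraMap.1 (RingHom.Finite.of_comp_finite h1)
  have key : ∃ (s : ℕ) (t : Fin s → k),
      LinearIndependent (frobenius k p).fieldRange (mono p t) ∧
      Submodule.span (frobenius k p).fieldRange (Set.range (mono p t)) = ⊤ := by
    by_contra hcon
    have hP : ∀ s : ℕ, ∃ (t : Fin s → k) (E : IntermediateField (frobenius k p).fieldRange k),
        LinearIndependent (frobenius k p).fieldRange (mono p t) ∧
        Submodule.span (frobenius k p).fieldRange (Set.range (mono p t)) =
          Subalgebra.toSubmodule E.toSubalgebra := by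
      intro s
      induction s with
      | zero =>
        refine ⟨Fin.elim0, ⊥, ?_, ?_⟩
        · have : Unique (Fin 0 → Fin p) := inferInstance
          refine LinearIndependent.of_subsingleton default ?_
          unfold mono
          rw [Finset.univ_eq_empty, Finset.prod_empty]
          exact one_ne_zero
        · have h1 : Set.range (mono p (Fin.elim0 : Fin 0 → k)) = {1} := by
            ext x
            constructor
            · rintro ⟨a, rfl⟩
              unfold mono
              rw [Finset.univ_eq_empty, Finset.prod_empty]
              rfl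
            · intro hx
              refine ⟨Fin.elim0, ?_⟩
              unfold mono
              rw [Finset.univ_eq_empty, Finset.prod_empty]
              exact hx.symm
          rw [h1, IntermediateField.bot_toSubalgebra, Algebra.toSubmodule_bot,
            Submodule.one_eq_span]
      | succ s ih =>
        obtain ⟨t, E, h1, h2⟩ := ih
        have h3 : ∃ u : k, u ∉ E := by
          by_contra h4
          push Not at h4
          refine hcon ⟨s, t, h1, ?_⟩
          rw [h2, eq_top_iff]
          intro x _
          exact h4 x
        obtain ⟨u, hu⟩ := h3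
        obtain ⟨E', h5, h6⟩ := step p k s t E h1 h2 u hu
        exact ⟨_, E', h5, h6⟩
    obtain ⟨t, E, h1, -⟩ := hP (Module.finrank (frobenius k p).fieldRange k)
    have h2 := h1.fintype_card_le_finrank
    rw [Fintype.card_fun, Fintype.card_fin, Fintype.card_fin] at h2
    have h3 : Module.finrank (frobenius k p).fieldRange k <
        p ^ Module.finrank (frobenius k p).fieldRange k := Nat.lt_pow_self hp.out.one_lt
    omega
  obtain ⟨s, t, h1, h2⟩ := key
  have hinj : Function.Injective (frobenius k p) := (frobenius k p).injective
  refine ⟨s, t, fun α => ?_⟩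
  have h3 : α ∈ Submodule.span (frobenius k p).fieldRange (Set.range (mono p t)) := by
    rw [h2]
    trivial
  rw [Submodule.mem_span_range_iff_exists_fun] at h3
  obtain ⟨d, hd⟩ := h3
  have h4 : ∀ a, ∃ c : k, c ^ p = (d a : k) := fun a => (d a).2
  choose c hc using h4
  refine ⟨c, ?_, ?_⟩
  · change α = ∑ a, c a ^ p * mono p t a
    rw [← hd]
    refine Finset.sum_congr rfl fun a _ => ?_
    rw [hc]
    rfl
  · intro c' hc'
    have hc2 : α = ∑ a, c' a ^ p * mono p t a := hc'
    have h5 : ∑ a, (d a - ⟨c' a ^ p, c' a, rfl⟩ : (frobenius k p).fieldRange) • mono p t a = 0 := by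
      have h6 : ∀ a, (d a - ⟨c' a ^ p, c' a, rfl⟩ : (frobenius k p).fieldRange) • mono p t a =
          d a • mono p t a - c' a ^ p * mono p t a := by
        intro a
        rw [sub_smul]
        rfl
      rw [Finset.sum_congr rfl fun a _ => h6 a, Finset.sum_sub_distrib, hd, ← hc2, sub_self]
    have h7 := Fintype.linearIndependent_iff.1 h1 _ h5
    funext a
    have h8 := h7 a
    rw [sub_eq_zero] at h8
    have h9 : (d a : k) = c' a ^ p := congrArg Subtype.val h8
    apply hinj
    change c' a ^ p = c a ^ p
    rw [hc, h9]

end Pool.Agent.H331.FT867PBE
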