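import Pool.Agent.H979.GW.StmA

/-!
# Project GW, piece M3: tilted first moments (for MP_276d40_pr)
-/

set_option autoImplicit false
set_option linter.unusedSectionVars false

namespace Pool.Agent.H331

open MeasureTheory ProbabilityTheory Filter Topology Set Pool.Agent.H979.GW
open scoped ENNReal NNReal

variable {Q : Type} [Fintype Q] [DecidableEq Q]

/-- integral of a product of functions of different coordinates -/
lemma gw_lint_prod_inf {ι : Type*} {X : ι → Type*} [∀ i, MeasurableSpace (X i)]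
    (μ : ∀ i, Measure (X i)) [∀ i, IsProbabilityMeasure (μ i)] (s : Finset ι)
    (f : ∀ i, X i → ℝ≥0∞) (hf : ∀ i, Measurable (f i)) :
    ∫⁻ y, ∏ i ∈ s, f i (y i) ∂Measure.infinitePi μ = ∏ i ∈ s, ∫⁻ x, f i x ∂μ i := by
  refine (lintegral_prod_eq_prod_lintegral_of_indepFun (μ := Measure.infinitePi μ) s
    (fun i y => f i (y i)) (iIndepFun_infinitePi hf)
    (fun i => (hf i).comp (measurable_pi_apply i))).trans ?_
  refine Finset.prod_congr rfl fun i _ => ?_
  exact (measurePreserving_eval_infinitePi μ i).lintegral_comp (hf i)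

/-- the tilted operator as a function of the offspring and of the subtrees -/
noncomputable def gG (ρ : ℝ) (e : Q → ℝ) (θ : ℝ) (f : Q → Env Q → ℝ≥0∞)
    (p : (Q → ℕ) × (Q × ℕ → Env Q)) : ℝ≥0∞ :=
  ∑ c ∈ chd p.1, ENNReal.ofReal (Real.exp (-(θ * ∑ d ∈ (chd p.1).erase c,
    WW ρ e d.1 (p.2 d)))) * f c.1 (p.2 c)

lemma Tth_eq (ρ : ℝ) (e : Q → ℝ) (θ : ℝ) (f : Q → Env Q → ℝ≥0∞) (a : Q) (ω : Env Q) :
    Tth ρ e θ f a ω = gG ρ e θ f (ω [], fun c : Q × ℕ => sh [c] ω) := rfl

lemma measurable_gG {ρ : ℝ} {e : Q → ℝ} (hW : ∀ a, Measurable (WW ρ e a)) (θ : ℝ)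
    {f : Q → Env Q → ℝ≥0∞} (hf : ∀ b, Measurable (f b)) : Measurable (gG ρ e θ f) := by
  unfold gG
  refine measurable_from_prod_countable_right fun x => ?_
  refine Finset.measurable_fun_sum (chd x) (f := fun c (y : Q × ℕ → Env Q) =>
    ENNReal.ofReal (Real.exp (-(θ * ∑ d ∈ (chd x).erase c, WW ρ e d.1 (y d)))) * f c.1 (y c))
    fun c _ => ?_
  refine Measurable.mul ?_ ((hf c.1).comp (measurable_pi_apply c))
  have h : Measurable fun y : Q × ℕ → Env Q => ∑ d ∈ (chd x).erase c, WW ρ e d.1 (y d) :=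
    Finset.measurable_fun_sum _ fun d _ => (hW d.1).comp (measurable_pi_apply d)
  fun_prop

/-- the integral over the subtrees for a fixed offspring -/
lemma inner_gG (q : Q → Measure (Q → ℕ)) [∀ a, IsProbabilityMeasure (q a)]
    {ρ : ℝ} {e : Q → ℝ} (hW : ∀ a, Measurable (WW ρ e a)) (θ : ℝ)
    {f : Q → Env Q → ℝ≥0∞} (hf : ∀ b, Measurable (f b)) (x : Q → ℕ) :
    ∫⁻ y, gG ρ e θ f (x, y) ∂(Measure.infinitePi fun c : Q × ℕ => law q c.1) =
      ∑ c ∈ chd x, (∏ d ∈ (chd x).erase c,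
        ∫⁻ ω, ENNReal.ofReal (Real.exp (-(θ * WW ρ e d.1 ω))) ∂(law q d.1)) *
          ∫⁻ ω, f c.1 ω ∂(law q c.1) := by
  have e0 : ∀ y : Q × ℕ → Env Q, gG ρ e θ f (x, y) = ∑ c ∈ chd x,
      ENNReal.ofReal (Real.exp (-(θ * ∑ d ∈ (chd x).erase c, WW ρ e d.1 (y d)))) * f c.1 (y c) :=
    fun _ => rfl
  rw [lintegral_congr e0]
  have hm : ∀ c : Q × ℕ, Measurable fun y : Q × ℕ → Env Q =>
      ENNReal.ofReal (Real.exp (-(θ * ∑ d ∈ (chd x).erase c, WW ρ e d.1 (y d)))) * f c.1 (y c) := by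
    intro c
    refine Measurable.mul ?_ ((hf c.1).comp (measurable_pi_apply c))
    have h : Measurable fun y : Q × ℕ → Env Q => ∑ d ∈ (chd x).erase c, WW ρ e d.1 (y d) :=
      Finset.measurable_fun_sum _ fun d _ => (hW d.1).comp (measurable_pi_apply d)
    fun_prop
  rw [lintegral_finsetSum _ fun c _ => hm c]
  refine Finset.sum_congr rfl fun c hc => ?_
  have hH : ∀ y : Q × ℕ → Env Q,
      ENNReal.ofReal (Real.exp (-(θ * ∑ d ∈ (chd x).erase c, WW ρ e d.1 (y d)))) * f c.1 (y c) =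
      ∏ d ∈ chd x, (if d = c then f d.1 (y d) else
        ENNReal.ofReal (Real.exp (-(θ * WW ρ e d.1 (y d))))) := by
    intro y
    rw [← Finset.mul_prod_erase _ _ hc, if_pos rfl, mul_comm]
    congr 1
    rw [Finset.mul_sum, ← Finset.sum_neg_distrib, Real.exp_sum,
      ENNReal.ofReal_prod_of_nonneg fun _ _ => (Real.exp_pos _).le]
    refine Finset.prod_congr rfl fun d hd => ?_
    rw [if_neg (Finset.ne_of_mem_erase hd)]
  rw [lintegral_congr hH]
  have hHm : ∀ d : Q × ℕ, Measurable fun ω : Env Q => (if d = c then f d.1 ω else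
      ENNReal.ofReal (Real.exp (-(θ * WW ρ e d.1 ω)))) := by
    intro d
    by_cases h : d = c
    · simp only [if_pos h]
      exact hf d.1
    · simp only [if_neg h]
      have := hW d.1
      fun_prop
  rw [gw_lint_prod_inf (fun c : Q × ℕ => law q c.1) (chd x) (fun d ω => (if d = c then f d.1 ω else
      ENNReal.ofReal (Real.exp (-(θ * WW ρ e d.1 ω))))) hHm,
    ← Finset.mul_prod_erase _ _ hc, mul_comm]
  congr 1
  · refine Finset.prod_congr rfl fun d hd => ?_
    refine lintegral_congr fun ω => ?_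
    rw [if_neg (Finset.ne_of_mem_erase hd)]
  · refine lintegral_congr fun ω => ?_
    rw [if_pos rfl]

/-- the integral of the tilted operator -/
lemma lint_Tth (q : Q → Measure (Q → ℕ)) [∀ a, IsProbabilityMeasure (q a)]
    (h1 : S_SH q) (h2 : S_DEC q) {ρ : ℝ} {e : Q → ℝ} (hW : ∀ a, Measurable (WW ρ e a)) (θ : ℝ)
    {f : Q → Env Q → ℝ≥0∞} (hf : ∀ b, Measurable (f b)) (a : Q) :
    ∫⁻ ω, Tth ρ e θ f a ω ∂(law q a) = ∫⁻ x, ∑ c ∈ chd x, (∏ d ∈ (chd x).erase c,
        ∫⁻ ω, ENNReal.ofReal (Real.exp (-(θ * WW ρ e d.1 ω))) ∂(law q d.1)) *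
          ∫⁻ ω, f c.1 ω ∂(law q c.1) ∂(q a) := by
  have hΦ : Measurable fun ω : Env Q => (ω [], fun c : Q × ℕ => sh [c] ω) :=
    (measurable_pi_apply _).prodMk (measurable_pi_lambda _ fun c => (h1 a [c]).1)
  have hg := measurable_gG hW θ hf
  calc ∫⁻ ω, Tth ρ e θ f a ω ∂(law q a)
      = ∫⁻ ω, gG ρ e θ f (ω [], fun c : Q × ℕ => sh [c] ω) ∂(law q a) := rfl
    _ = ∫⁻ p, gG ρ e θ f p ∂((law q a).map fun ω => (ω [], fun c : Q × ℕ => sh [c] ω)) := by
        rw [lintegral_map hg hΦ]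
    _ = ∫⁻ x, ∫⁻ y, gG ρ e θ f (x, y) ∂(Measure.infinitePi fun c : Q × ℕ => law q c.1) ∂(q a) := by
        rw [h2 a, lintegral_prod _ hg.aemeasurable]
    _ = _ := lintegral_congr fun x => inner_gG q hW θ hf x

lemma WW_nonneg (ρ : ℝ) (e : Q → ℝ) (a : Q) (ω : Env Q) : 0 ≤ WW ρ e a ω := ENNReal.toReal_nonneg

lemma Tth_one (ρ : ℝ) (e : Q → ℝ) (θ : ℝ) (a b : Q) (ω : Env Q) :
    Tth ρ e θ (fun b' _ => if b' = b then 1 else 0) a ω = ENNReal.ofReal
      (∑ c ∈ chd (ω []), (if c.1 = b then Real.exp (-(θ * Bc ρ e ω c)) else 0)) := by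
  unfold Tth
  rw [ENNReal.ofReal_sum_of_nonneg]
  · refine Finset.sum_congr rfl fun c _ => ?_
    by_cases h : c.1 = b
    · simp [h]
    · simp [h]
  · intro c _
    split_ifs
    · exact (Real.exp_pos _).le
    · exact le_rfl

theorem gw_m3 (q : Q → Measure (Q → ℕ)) [∀ a, IsProbabilityMeasure (q a)]
    (hm : ∀ a b, Integrable (fun x : Q → ℕ => (x b : ℝ)) (q a))
    (h1 : S_SH q) (h2 : S_DEC q) (ρ : ℝ) (e : Q → ℝ) (hW : ∀ a, Measurable (WW ρ e a)) :
    S_M3 q ρ e := by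
  intro θ hθ f hf
  have hmeas : ∀ (f : Q → Env Q → ℝ≥0∞), (∀ b, Measurable (f b)) →
      ∀ a, Measurable (Tth ρ e θ f a) := by
    intro f hf a
    have hΦ : Measurable fun ω : Env Q => (ω [], fun c : Q × ℕ => sh [c] ω) :=
      (measurable_pi_apply _).prodMk (measurable_pi_lambda _ fun c => (h1 a [c]).1)
    have e0 : Tth ρ e θ f a = (gG ρ e θ f) ∘ (fun ω : Env Q => (ω [], fun c : Q × ℕ => sh [c] ω)) := by
      funext ω
      exact Tth_eq ρ e θ f a ω
    rw [e0]
    exact (measurable_gG hW θ hf).comp hΦ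
  refine ⟨hmeas f hf, fun a => ?_⟩
  -- the coefficients
  have hK : ∀ b, ENNReal.ofReal (Kth q ρ e θ a b) =
      ∫⁻ ω, Tth ρ e θ (fun b' _ => if b' = b then 1 else 0) a ω ∂(law q a) := by
    intro b
    have hnn : ∀ ω : Env Q, 0 ≤
        ∑ c ∈ chd (ω []), (if c.1 = b then Real.exp (-(θ * Bc ρ e ω c)) else 0) := by
      intro ω
      refine Finset.sum_nonneg fun c _ => ?_
      split_ifs
      · exact (Real.exp_pos _).le
      · exact le_rfl
    have hle : ∀ ω : Env Q,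
        ∑ c ∈ chd (ω []), (if c.1 = b then Real.exp (-(θ * Bc ρ e ω c)) else 0) ≤
          ((ω [] b : ℕ) : ℝ) := by
      intro ω
      calc ∑ c ∈ chd (ω []), (if c.1 = b then Real.exp (-(θ * Bc ρ e ω c)) else 0)
          ≤ ∑ c ∈ chd (ω []), (if c.1 = b then (1 : ℝ) else 0) := by
            refine Finset.sum_le_sum fun c _ => ?_
            split_ifs
            · rw [Real.exp_le_one_iff, neg_nonpos]
              exact mul_nonneg hθ (Finset.sum_nonneg fun d _ => WW_nonneg ρ e _ _)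
            · exact le_rfl
        _ = ((ω [] b : ℕ) : ℝ) := by
            rw [sum_chd, Finset.sum_eq_single b]
            · simp
            · intro b' _ hb'
              refine Finset.sum_eq_zero fun i _ => ?_
              rw [if_neg hb']
            · intro h
              exact absurd (Finset.mem_univ _) h
    have hme : Measurable fun ω : Env Q =>
        ∑ c ∈ chd (ω []), (if c.1 = b then Real.exp (-(θ * Bc ρ e ω c)) else 0) := by
      have h3 := hmeas (fun b' _ => if b' = b then 1 else 0) (fun _ => measurable_const) a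
      have h4 : (fun ω : Env Q =>
          ∑ c ∈ chd (ω []), (if c.1 = b then Real.exp (-(θ * Bc ρ e ω c)) else 0)) =
          fun ω => (Tth ρ e θ (fun b' _ => if b' = b then 1 else 0) a ω).toReal := by
        funext ω
        rw [Tth_one, ENNReal.toReal_ofReal (hnn ω)]
      rw [h4]
      exact h3.ennreal_toReal
    have hroot : Integrable (fun ω : Env Q => ((ω [] b : ℕ) : ℝ)) (law q a) :=
      (measurePreserving_eval_infinitePi (fun v : Vx Q => q (ty a v)) []).integrable_comp_of_integrable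
        (hm a b)
    have hint : Integrable (fun ω : Env Q =>
        ∑ c ∈ chd (ω []), (if c.1 = b then Real.exp (-(θ * Bc ρ e ω c)) else 0)) (law q a) := by
      refine hroot.mono' hme.aestronglyMeasurable (Eventually.of_forall fun ω => ?_)
      rw [Real.norm_eq_abs, abs_of_nonneg (hnn ω)]
      exact hle ω
    unfold Kth
    rw [ofReal_integral_eq_lintegral_ofReal hint (Eventually.of_forall hnn)]
    exact lintegral_congr fun ω => (Tth_one ρ e θ a b ω).symm
  simp_rw [hK]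
  rw [lint_Tth q h1 h2 hW θ hf a]
  have hK2 : ∀ b, ∫⁻ ω, Tth ρ e θ (fun b' _ => if b' = b then 1 else 0) a ω ∂(law q a) =
      ∫⁻ x, ∑ c ∈ chd x, (∏ d ∈ (chd x).erase c,
        ∫⁻ ω, ENNReal.ofReal (Real.exp (-(θ * WW ρ e d.1 ω))) ∂(law q d.1)) *
          (if c.1 = b then 1 else 0) ∂(q a) := by
    intro b
    rw [lint_Tth q h1 h2 hW θ (fun _ => measurable_const) a]
    refine lintegral_congr fun x => Finset.sum_congr rfl fun c _ => ?_
    rw [lintegral_const, measure_univ, mul_one]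
  simp_rw [hK2]
  have hcm : ∀ g : (Q → ℕ) → ℝ≥0∞, Measurable g := fun g => measurable_of_countable g
  have hr : ∀ b, (∫⁻ x, ∑ c ∈ chd x, (∏ d ∈ (chd x).erase c,
        ∫⁻ ω, ENNReal.ofReal (Real.exp (-(θ * WW ρ e d.1 ω))) ∂(law q d.1)) *
          (if c.1 = b then 1 else 0) ∂(q a)) * ∫⁻ ω, f b ω ∂(law q b) =
      ∫⁻ x, (∑ c ∈ chd x, (∏ d ∈ (chd x).erase c,
        ∫⁻ ω, ENNReal.ofReal (Real.exp (-(θ * WW ρ e d.1 ω))) ∂(law q d.1)) *
          (if c.1 = b then 1 else 0)) * ∫⁻ ω, f b ω ∂(law q b) ∂(q a) :=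
    fun b => (lintegral_mul_const _ (hcm _)).symm
  simp_rw [hr]
  rw [← lintegral_finsetSum _ fun b _ => hcm _]
  refine lintegral_congr fun x => ?_
  simp_rw [Finset.sum_mul]
  rw [Finset.sum_comm]
  refine Finset.sum_congr rfl fun c _ => ?_
  rw [Finset.sum_eq_single c.1]
  · simp
  · intro b _ hb
    rw [if_neg (Ne.symm hb), mul_zero, zero_mul]
  · intro h
    exact absurd (Finset.mem_univ _) h

end Pool.Agent.H331
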