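import Pool.Agent.H283.HT.Stm

/-!
# W2: lighting the top face
-/

set_option autoImplicit false

namespace Pool.Agent.H331.HTX

open Pool.Agent.H283.HT

/-! ## Plane algebra -/

theorem dt_self_pos {w : P2} (hw : w ≠ 0) : 0 < dt w w := by
  unfold dt
  by_contra h
  apply hw
  have h1 : w.1 = 0 := by nlinarith [sq_nonneg w.1, sq_nonneg w.2]
  have h2 : w.2 = 0 := by nlinarith [sq_nonneg w.1, sq_nonneg w.2]
  exact Prod.ext h1 h2

theorem par {w v : P2} (hw : w ≠ 0) (h : det w v = 0) : v = (dt w v / dt w w) • w := by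
  have h0 := dt_self_pos hw
  unfold det at h
  have e : ∀ x y : ℝ, x * dt w w = dt w v * y → x = dt w v / dt w w * y := by
    intro x y hxy
    field_simp
    linarith
  refine Prod.ext (e _ _ ?_) (e _ _ ?_)
  · unfold dt
    linear_combination -w.2 * h
  · unfold dt
    linear_combination w.1 * h

theorem det_of_dt {ν w v : P2} (hν : ν ≠ 0) (hw : dt ν w = 0) (hv : dt ν v = 0) :
    det w v = 0 := by
  unfold dt at hw hv
  unfold det
  have h1 : ν.1 * (w.1 * v.2 - w.2 * v.1) = 0 := by linear_combination v.2 * hw - w.2 * hv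
  have h2 : ν.2 * (w.1 * v.2 - w.2 * v.1) = 0 := by linear_combination -v.1 * hw + w.1 * hv
  rcases mul_eq_zero.1 h1 with h | h
  · rcases mul_eq_zero.1 h2 with h' | h'
    · exact absurd (Prod.ext h h') hν
    · exact h'
  · exact h

/-! ## The top face -/

/-- the top face -/
def FF (K : Set P3) : Set P2 := {p | ((p, (1 : ℝ)) : P3) ∈ K}

theorem FF_sub (K : Set P3) : FF K ⊆ Sh K := fun p hp => ⟨(p, 1), hp, rfl⟩

theorem smul_pt {K : Set P3} (hK : Body K) {p : P2} {z : ℝ} (h : ((p, z) : P3) ∈ K) {c : ℝ}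
    (hc : |c| ≤ 1) : ((c • p, z) : P3) ∈ K := by
  have h1 : ((-p, z) : P3) ∈ K := hK.sym _ h
  obtain ⟨h2, h3⟩ := abs_le.1 hc
  have h4 := hK.conv h h1 (a := (1 + c) / 2) (b := (1 - c) / 2) (by linarith) (by linarith)
    (by ring)
  have e : ((c • p, z) : P3) = ((1 + c) / 2) • ((p, z) : P3) + ((1 - c) / 2) • ((-p, z) : P3) := by
    refine Prod.ext (Prod.ext ?_ ?_) ?_
    · change c * p.1 = (1 + c) / 2 * p.1 + (1 - c) / 2 * (-p.1)
      ring
    · change c * p.2 = (1 + c) / 2 * p.2 + (1 - c) / 2 * (-p.2)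
      ring
    · change z = (1 + c) / 2 * z + (1 - c) / 2 * z
      ring
  rw [e]
  exact h4

theorem conv_pt {K : Set P3} (hK : Body K) {p q : P2} {z y : ℝ} (h : ((p, z) : P3) ∈ K)
    (h' : ((q, y) : P3) ∈ K) {a b : ℝ} (ha : 0 ≤ a) (hb : 0 ≤ b) (hab : a + b = 1) :
    ((a • p + b • q, a * z + b * y) : P3) ∈ K := hK.conv h h' ha hb hab

theorem disc_FF {K : Set P3} (hK : Body K) {p₀ f : P2} (h0 : p₀ ∈ FF K) (hf : f ∈ FF K)
    (hd : det p₀ f ≠ 0) : Disc (FF K) where
  conv := by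
    intro p hp q hq a b ha hb hab
    have h := conv_pt hK hp hq ha hb hab
    have e : a * 1 + b * 1 = (1 : ℝ) := by linarith
    rw [e] at h
    exact h
  comp := by
    have e : FF K = Prod.fst '' (K ∩ {x : P3 | x.2 = 1}) := by
      ext p
      constructor
      · intro hp
        exact ⟨(p, 1), ⟨hp, rfl⟩, rfl⟩
      · rintro ⟨⟨q, z⟩, ⟨hx, hz⟩, rfl⟩
        change z = 1 at hz
        subst hz
        exact hx
    rw [e]
    exact (hK.comp.inter_right (isClosed_eq continuous_snd continuous_const)).image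
      continuous_fst
  sym := fun p hp => hK.sym _ hp
  zero := by
    rw [mem_interior_iff_mem_nhds]
    have hU : IsOpen {v : P2 | |det v f / det p₀ f| < 1 / 2 ∧ |det p₀ v / det p₀ f| < 1 / 2} := by
      have c1 : Continuous fun v : P2 => |det v f / det p₀ f| := by
        unfold det
        fun_prop
      have c2 : Continuous fun v : P2 => |det p₀ v / det p₀ f| := by
        unfold det
        fun_prop
      exact (isOpen_lt c1 continuous_const).inter (isOpen_lt c2 continuous_const)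
    refine Filter.mem_of_superset (hU.mem_nhds ?_) ?_
    · constructor
      · simp [det]
      · simp [det]
    · rintro v ⟨h1, h2⟩
      have k1 := smul_pt hK h0 (c := 2 * (det v f / det p₀ f))
        (by rw [abs_mul, abs_two]; linarith)
      have k2 := smul_pt hK hf (c := 2 * (det p₀ v / det p₀ f))
        (by rw [abs_mul, abs_two]; linarith)
      have k3 := conv_pt hK k1 k2 (a := 1 / 2) (b := 1 / 2) (by norm_num) (by norm_num)
        (by norm_num)
      have e1 : (1 : ℝ) / 2 * 1 + 1 / 2 * 1 = 1 := by norm_num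
      have e2 : (1 / 2 : ℝ) • (2 * (det v f / det p₀ f)) • p₀ +
          (1 / 2 : ℝ) • (2 * (det p₀ v / det p₀ f)) • f = v := by
        refine Prod.ext ?_ ?_
        · change 1 / 2 * (2 * (det v f / det p₀ f) * p₀.1) +
            1 / 2 * (2 * (det p₀ v / det p₀ f) * f.1) = v.1
          field_simp
          unfold det
          ring
        · change 1 / 2 * (2 * (det v f / det p₀ f) * p₀.2) +
            1 / 2 * (2 * (det p₀ v / det p₀ f) * f.2) = v.2
          field_simp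
          unfold det
          ring
      rw [e1, e2] at k3
      exact k3

/-- leaving a compact set along a ray -/
theorem exists_exit {F : Set P2} (hF : IsCompact F) (h0 : (0 : P2) ∈ F) {p : P2} (hp : p ∉ F) :
    ∃ l : ℝ, 0 ≤ l ∧ l < 1 ∧ l • p ∈ F ∧ l • p ∉ interior F := by
  obtain ⟨l, hl, hmax⟩ := (isCompact_Icc (a := (0 : ℝ)) (b := 1)).inter_right
    (hF.isClosed.preimage (f := fun l : ℝ => l • p) (by fun_prop)) |>.exists_isGreatest
      ⟨0, ⟨le_rfl, zero_le_one⟩, by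
        change (0 : ℝ) • p ∈ F
        rw [zero_smul]
        exact h0⟩
  have hl1 : l < 1 := by
    refine lt_of_le_of_ne hl.1.2 ?_
    rintro rfl
    apply hp
    have := hl.2
    change (1 : ℝ) • p ∈ F at this
    rwa [one_smul] at this
  refine ⟨l, hl.1.1, hl1, hl.2, fun hint => ?_⟩
  have h1 : ∀ᶠ t : ℝ in nhds l, t • p ∈ interior F := by
    have hc : ContinuousAt (fun t : ℝ => t • p) l := by fun_prop
    exact hc.eventually_mem (isOpen_interior.mem_nhds hint)
  obtain ⟨ε, hε, h2⟩ := Metric.eventually_nhds_iff.1 h1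
  have h3 : min (ε / 2) (1 - l) ≤ ε / 2 := min_le_left _ _
  have h4 : min (ε / 2) (1 - l) ≤ 1 - l := min_le_right _ _
  have h5 : 0 < min (ε / 2) (1 - l) := lt_min (by linarith) (by linarith)
  have h6 : (l + min (ε / 2) (1 - l)) • p ∈ interior F := by
    apply h2
    rw [Real.dist_eq, add_sub_cancel_left, abs_of_pos h5]
    linarith
  have h8 : l + min (ε / 2) (1 - l) ∈ Set.Icc (0 : ℝ) 1 ∩ (fun l : ℝ => l • p) ⁻¹' F :=
    ⟨⟨by linarith [hl.1.1], by linarith⟩, interior_subset (s := F) h6⟩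
  have h7 := hmax h8
  linarith

theorem lt_one {K : Set P3} (hK : Body K) {p : P2} {z : ℝ} (hx : ((p, z) : P3) ∈ interior K) :
    z < 1 := by
  have h1 : ∀ᶠ t : ℝ in nhds z, ((p, t) : P3) ∈ interior K := by
    have hc : ContinuousAt (fun t : ℝ => ((p, t) : P3)) z := by fun_prop
    exact hc.eventually_mem (isOpen_interior.mem_nhds hx)
  obtain ⟨ε, hε, h2⟩ := Metric.eventually_nhds_iff.1 h1
  have h3 : ((p, z + ε / 2) : P3) ∈ interior K := by
    apply h2
    rw [Real.dist_eq, add_sub_cancel_left, abs_of_pos (by linarith)]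
    linarith
  have h4 : z + ε / 2 ≤ 1 := hK.le _ (interior_subset h3)
  linarith

/-- a box around an interior point -/
theorem exists_box {Q : Set P2} {p : P2} (hp : p ∈ interior Q) :
    ∃ r : ℝ, 0 < r ∧ ∀ v : P2, |v.1| ≤ r → |v.2| ≤ r → p + v ∈ interior Q := by
  obtain ⟨ε, hε, h⟩ := Metric.isOpen_iff.1 isOpen_interior p hp
  refine ⟨ε / 2, by linarith, fun v h1 h2 => h ?_⟩
  rw [Metric.mem_ball, dist_eq_norm, add_sub_cancel_left]
  have : ‖v‖ ≤ ε / 2 := by
    rw [Prod.norm_def]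
    exact max_le (by rwa [Real.norm_eq_abs]) (by rwa [Real.norm_eq_abs])
  linarith

/-- the point `f₀` -/
theorem light_f0 {K : Set P3} (hK : Body K) (hLIGHT : S_LIGHT) {f₀ w : P2} (hfF : f₀ ∈ FF K)
    (hfi : f₀ ∈ interior (Sh K)) {κ c₀ : ℝ} (hκ : 0 < κ) (hc₀ : 0 < c₀)
    (hc : ((f₀, 1 - c₀) : P3) ∈ K)
    (happ : ∀ ε : ℝ, 0 < ε → ∃ f ∈ FF K, ∃ (s : ℝ) (η : P2), 0 < s ∧ |η.1| < ε ∧ |η.2| < ε ∧
      f = f₀ + s • (w + η)) : ((w, -κ) : P3) ∈ C K (f₀, 1) := by
  obtain ⟨r, hr, hbox⟩ := exists_box hfi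
  obtain ⟨f, hf, s', η, hs', h1, h2, hfe⟩ := happ (κ * r / 4) (by positivity)
  have hW : 0 < |w.1| + |w.2| + 1 := by positivity
  obtain ⟨s, hs0, hsa, hsb, hsc⟩ : ∃ s : ℝ, 0 < s ∧ s ≤ s' / 2 ∧ s ≤ 2 / κ ∧
      s ≤ r / (|w.1| + |w.2| + 1) := by
    refine ⟨min (s' / 2) (min (2 / κ) (r / (|w.1| + |w.2| + 1))), ?_, min_le_left _ _,
      (min_le_right _ _).trans (min_le_left _ _), (min_le_right _ _).trans (min_le_right _ _)⟩
    exact lt_min (by linarith) (lt_min (by positivity) (by positivity))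
  have hsκ : s * κ ≤ 2 := by
    rw [le_div_iff₀ hκ] at hsb
    exact hsb
  have hsr : s * (|w.1| + |w.2| + 1) ≤ r := by
    rw [le_div_iff₀ hW] at hsc
    exact hsc
  obtain ⟨l, hl⟩ : ∃ l : ℝ, l = s * κ / 4 := ⟨_, rfl⟩
  have hl0 : 0 < l := by rw [hl]; positivity
  have hl2 : l ≤ 1 / 2 := by rw [hl]; linarith
  -- the first point
  have hlam0 : 0 ≤ s / ((1 - l) * s') := by
    have : 0 < 1 - l := by linarith
    positivity
  have hlam1 : s / ((1 - l) * s') ≤ 1 := by
    have h3 : 0 < 1 - l := by linarith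
    rw [div_le_one (by positivity)]
    nlinarith
  have q1 := conv_pt hK hfF hf (a := 1 - s / ((1 - l) * s')) (b := s / ((1 - l) * s'))
    (by linarith) hlam0 (by ring)
  -- the second point
  have hsl : s / l * κ = 4 := by
    rw [hl]
    field_simp
  have hv : ∀ x : ℝ, |x| < κ * r / 4 → |-(s / l * x)| ≤ r := by
    intro x hx
    have h3 : 0 < s / l := by positivity
    rw [abs_neg, abs_mul, abs_of_pos h3]
    calc s / l * |x| ≤ s / l * (κ * r / 4) := mul_le_mul_of_nonneg_left hx.le h3.le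
      _ = s / l * κ * r / 4 := by ring
      _ = r := by rw [hsl]; ring
  obtain ⟨⟨q, ζ⟩, hqK, hq⟩ := interior_subset (hbox (-(s / l) • η)
    (by
      change |-(s / l) * η.1| ≤ r
      rw [neg_mul]
      exact hv _ h1)
    (by
      change |-(s / l) * η.2| ≤ r
      rw [neg_mul]
      exact hv _ h2))
  change q = _ at hq
  have hζ : -1 ≤ ζ := hK.ge _ hqK
  have q2 := conv_pt hK q1 hqK (a := 1 - l) (b := l) (by linarith) hl0.le (by ring)
  have e1 : (1 - l) • ((1 - s / ((1 - l) * s')) • f₀ + (s / ((1 - l) * s')) • f) + l • q =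
      f₀ + s • w := by
    have h3 : (1 - l) ≠ 0 := by linarith
    rw [hq, hfe]
    refine Prod.ext ?_ ?_
    · change (1 - l) * ((1 - s / ((1 - l) * s')) * f₀.1 + s / ((1 - l) * s') *
        (f₀.1 + s' * (w.1 + η.1))) + l * (f₀.1 + -(s / l) * η.1) = f₀.1 + s * w.1
      field_simp
      ring
    · change (1 - l) * ((1 - s / ((1 - l) * s')) * f₀.2 + s / ((1 - l) * s') *
        (f₀.2 + s' * (w.2 + η.2))) + l * (f₀.2 + -(s / l) * η.2) = f₀.2 + s * w.2
      field_simp
      ring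
  rw [e1] at q2
  refine hLIGHT K hK f₀ w 1 (-κ) s s _ 0 (1 - c₀) hfF hs0 ?_ hs0.le q2 ?_ le_rfl ?_ ?_
  · apply hbox
    · change |s * w.1| ≤ r
      rw [abs_mul, abs_of_pos hs0]
      have := abs_nonneg w.2
      nlinarith
    · change |s * w.2| ≤ r
      rw [abs_mul, abs_of_pos hs0]
      have := abs_nonneg w.1
      nlinarith
  · have h3 : l * ζ ≥ l * (-1) := mul_le_mul_of_nonneg_left hζ hl0.le
    have h4 : 0 < s * κ := by positivity
    rw [hl] at h3 ⊢
    nlinarith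
  · rw [zero_smul, add_zero]
    exact hc
  · linarith

theorem W2_done (hSH : S_SH) (hDI : S_DI) (hLIGHT : S_LIGHT) (hRC : S_RC) (hW1 : S_W1) :
    S_W2 := by
  intro K hK p₀ f hp₀ hint hf hne ⟨p, hp, hp1⟩
  obtain ⟨hShD, hSh2⟩ := hSH K hK
  obtain ⟨hS1, -, -, -⟩ := hDI (Sh K) hShD
  have hp00 : p₀ ≠ 0 := by
    rintro rfl
    exact hint hShD.zero
  have hd : det p₀ f ≠ 0 := fun h => hne _ (par hp00 h)
  have hFD := disc_FF hK hp₀ hf hd
  obtain ⟨hF1, -, ⟨B, hB, hFB⟩, -⟩ := hDI (FF K) hFD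
  obtain ⟨l, hl0, hl1, hlF, hlnF⟩ := exists_exit hFD.comp (interior_subset hFD.zero) (p := p) hp1
  have hin : ∀ c : ℝ, |c| ≤ 1 → c • (l • p) ∈ interior (Sh K) := by
    intro c hc
    rw [smul_smul]
    apply hS1 p hp
    rw [abs_mul, abs_of_nonneg hl0]
    calc |c| * l ≤ 1 * l := mul_le_mul_of_nonneg_right hc hl0
      _ < 1 := by linarith
  obtain ⟨f₀, hf₀⟩ : ∃ f₀ : P2, f₀ = l • p := ⟨_, rfl⟩
  rw [← hf₀] at hlF hlnF hin
  obtain ⟨w, ν, hw, hν, hνw, hνmax, hνpos, happ⟩ := hW1 (FF K) hFD f₀ hlF hlnF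
  have hfi : f₀ ∈ interior (Sh K) := by
    have := hin 1 (by simp)
    rwa [one_smul] at this
  obtain ⟨z₀, hz₀⟩ := hSh2 f₀ hfi
  have hz1 : z₀ < 1 := lt_one hK hz₀
  obtain ⟨c₀, hc₀e⟩ : ∃ c₀ : ℝ, c₀ = 1 - z₀ := ⟨_, rfl⟩
  have hc₀ : 0 < c₀ := by linarith
  have hcK : ((f₀, 1 - c₀) : P3) ∈ K := by
    have e : 1 - c₀ = z₀ := by linarith
    rw [e]
    exact interior_subset hz₀
  -- the decomposition
  have hww := dt_self_pos hw
  obtain ⟨S, hS, hSb⟩ : ∃ S : ℝ, 0 < S ∧ ∀ q q' : P2, q ∈ FF K → q' ∈ FF K →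
      |dt w (q' - q) / dt w w| ≤ S := by
    refine ⟨2 * B * (|w.1| + |w.2|) / dt w w + 1, by positivity, fun q q' hq hq' => ?_⟩
    rw [abs_div, abs_of_pos hww, ← sub_nonneg]
    have h1 : |dt w (q' - q)| ≤ 2 * B * (|w.1| + |w.2|) := by
      obtain ⟨a1, a2⟩ := hFB q hq
      obtain ⟨b1, b2⟩ := hFB q' hq'
      have c1 : |q'.1 - q.1| ≤ 2 * B := (abs_sub _ _).trans (by linarith)
      have c2 : |q'.2 - q.2| ≤ 2 * B := (abs_sub _ _).trans (by linarith)
      have d1 : |w.1 * (q'.1 - q.1)| ≤ |w.1| * (2 * B) := by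
        rw [abs_mul]
        exact mul_le_mul_of_nonneg_left c1 (abs_nonneg _)
      have d2 : |w.2 * (q'.2 - q.2)| ≤ |w.2| * (2 * B) := by
        rw [abs_mul]
        exact mul_le_mul_of_nonneg_left c2 (abs_nonneg _)
      have d3 : |dt w (q' - q)| ≤ |w.1 * (q'.1 - q.1)| + |w.2 * (q'.2 - q.2)| := abs_add_le _ _
      linarith
    have h2 : |dt w (q' - q)| / dt w w ≤ 2 * B * (|w.1| + |w.2|) / dt w w :=
      div_le_div_of_nonneg_right h1 hww.le
    linarith
  obtain ⟨κ, hκ, hκS⟩ : ∃ κ : ℝ, 0 < κ ∧ S * κ < c₀ := by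
    refine ⟨c₀ / (2 * S), by positivity, ?_⟩
    have : S * (c₀ / (2 * S)) = c₀ / 2 := by field_simp
    linarith
  refine ⟨w, κ, hκ, fun q hq => ?_⟩
  obtain ⟨t, ht⟩ : ∃ t : ℝ, t = dt ν q / dt ν f₀ := ⟨_, rfl⟩
  have ht1 : |t| ≤ 1 := by
    have h1 := hνmax q hq
    have h2 := hνmax (-q) (hFD.sym q hq)
    have h3 : dt ν (-q) = -dt ν q := by
      unfold dt
      change ν.1 * -q.1 + ν.2 * -q.2 = _
      ring
    rw [ht, abs_div, abs_of_pos hνpos, div_le_one hνpos]
    exact abs_le.2 ⟨by linarith, h1⟩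
  have hq'F : t • f₀ ∈ FF K := smul_pt hK hlF ht1
  have hσ : t • f₀ - q = (dt w (t • f₀ - q) / dt w w) • w := by
    refine par hw (det_of_dt hν hνw ?_)
    have e : dt ν (t • f₀ - q) = t * dt ν f₀ - dt ν q := by
      unfold dt
      change ν.1 * (t * f₀.1 - q.1) + ν.2 * (t * f₀.2 - q.2) = _
      ring
    rw [e, ht, div_mul_cancel₀ _ hνpos.ne', sub_self]
  have hσS := hSb q (t • f₀) hq hq'F
  obtain ⟨σ, hσd⟩ : ∃ σ : ℝ, σ = dt w (t • f₀ - q) / dt w w := ⟨_, rfl⟩
  rw [← hσd] at hσ hσS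
  have hcK' : ((t • f₀, 1 - c₀) : P3) ∈ K := smul_pt hK hcK ht1
  have hσκ : |σ| * κ < c₀ := lt_of_le_of_lt (mul_le_mul_of_nonneg_right hσS hκ.le) hκS
  rcases lt_trichotomy σ 0 with hneg | hzero | hpos
  · right
    have e : q + (-σ) • (-w) = t • f₀ := by
      rw [neg_smul, smul_neg, neg_neg, ← hσ]
      abel
    rw [abs_of_neg hneg] at hσκ
    refine hLIGHT K hK q (-w) 1 (-κ) (-σ) (-σ) 1 (-σ) (1 - c₀) hq (by linarith) ?_
      (by linarith) ?_ ?_ (by linarith) ?_ ?_
    · rw [e]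
      exact hin t ht1
    · rw [e]
      exact hq'F
    · nlinarith
    · rw [e]
      exact hcK'
    · linarith
  · -- `q = t f₀`
    have hqt : q = t • f₀ := by
      rw [hzero, zero_smul, sub_eq_zero] at hσ
      exact hσ.symm
    rcases lt_or_ge |t| 1 with ht | ht'
    · left
      have hqi : q ∈ interior (FF K) := by
        rw [hqt]
        exact hF1 f₀ hlF t ht
      obtain ⟨r, hr, hbox⟩ := exists_box hqi
      have hW : 0 < |w.1| + |w.2| + 1 := by positivity
      have hs0 : 0 < r / (|w.1| + |w.2| + 1) := by positivity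
      have hsr : r / (|w.1| + |w.2| + 1) * (|w.1| + |w.2| + 1) = r := by field_simp
      obtain ⟨s, hs⟩ : ∃ s : ℝ, s = r / (|w.1| + |w.2| + 1) := ⟨_, rfl⟩
      rw [← hs] at hs0 hsr
      have hmem : q + s • w ∈ interior (FF K) := by
        apply hbox
        · change |s * w.1| ≤ r
          rw [abs_mul, abs_of_pos hs0]
          have := abs_nonneg w.2
          nlinarith
        · change |s * w.2| ≤ r
          rw [abs_mul, abs_of_pos hs0]
          have := abs_nonneg w.1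
          nlinarith
      have hmem' : q + s • w ∈ FF K := interior_subset hmem
      refine hLIGHT K hK q w 1 (-κ) s s 1 0 (1 - c₀) hq hs0 (interior_mono (FF_sub K) hmem)
        hs0.le hmem' (by nlinarith) le_rfl ?_ (by linarith)
      rw [zero_smul, add_zero, hqt]
      exact hcK'
    · have hf0 := light_f0 hK hLIGHT hlF hfi hκ hc₀ hcK happ
      have ht2 : |t| = 1 := le_antisymm ht1 ht'
      rcases (abs_eq zero_le_one).1 ht2 with h | h
      · left
        rw [hqt, h, one_smul]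
        exact hf0
      · right
        rw [hqt, h, neg_one_smul]
        exact (hRC K hK).1 _ _ hf0
  · left
    have e : q + σ • w = t • f₀ := by
      rw [← hσ]
      abel
    rw [abs_of_pos hpos] at hσκ
    refine hLIGHT K hK q w 1 (-κ) σ σ 1 σ (1 - c₀) hq hpos ?_
      hpos.le ?_ ?_ hpos.le ?_ ?_
    · rw [e]
      exact hin t ht1
    · rw [e]
      exact hq'F
    · nlinarith
    · rw [e]
      exact hcK'
    · linarith

end Pool.Agent.H331.HTX
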