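import Pool.Agent.H398.Kt.Iface

/-!
Quotient by an invariant vector (`S_koszulZero`) and inflation along a linear map (`S_infl`).
-/

set_option autoImplicit false

namespace Pool.Agent.H331.Kt

open Pool.Agent.H398.Kt Pool.Agent.H398.Kt.Md

universe u

/-! ### The quotient by an invariant vector -/

section quo

variable {k : Type u} [Field k] {q : ℕ}

/-- the quotient by an invariant vector -/
abbrev quoV (Z : Md k q) (s : Z.V) (hs : ∀ i, Z.x i s = 0) : Md k q where
  V := Z.V ⧸ Submodule.span k {s}
  x i := (Submodule.span k {s}).mapQ (Submodule.span k {s}) (Z.x i) (by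
    rw [Submodule.span_le]
    intro v hv
    rw [Set.mem_singleton_iff] at hv
    change Z.x i v ∈ Submodule.span k {s}
    rw [hv, hs]
    exact zero_mem _)
  comm i j v := by
    obtain ⟨v, rfl⟩ := Submodule.Quotient.mk_surjective _ v
    simp only [Submodule.mapQ_apply, Z.comm i j]
  sq i v := by
    obtain ⟨v, rfl⟩ := Submodule.Quotient.mk_surjective _ v
    simp only [Submodule.mapQ_apply, Z.sq i, Submodule.Quotient.mk_zero]

/-- the exact sequence of the quotient by an invariant vector -/
noncomputable def sesV (Z : Md k q) (s : Z.V) (hs : ∀ i, Z.x i s = 0) (h0 : s ≠ 0) :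
    SES (one k q) Z (quoV Z s hs) where
  f := LinearMap.toSpanSingleton k Z.V s
  g := (Submodule.span k {s}).mkQ
  hf i v := by
    change (0 : k) • s = Z.x i (v • s)
    rw [zero_smul, map_smul, hs, smul_zero]
  hg i v := rfl
  inj a ha := by
    have h1 : a • s = 0 := ha
    rcases smul_eq_zero.1 h1 with h2 | h2
    · exact h2
    · exact absurd h2 h0
  surj c := Submodule.mkQ_surjective _ c
  exact b := by
    rw [Submodule.mkQ_apply, Submodule.Quotient.mk_eq_zero, Submodule.mem_span_singleton]
    rfl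

theorem proof_koszulZero : S_koszulZero.{u} := by
  intro k _ _ q Z b ξ hc hev
  obtain ⟨-, hc2⟩ := hc
  have hs : ∀ i, Z.x i (ξ 0) = 0 := by
    intro i
    have h1 := hc2 (Pi.single i 1)
    rw [Finset.sum_eq_single i] at h1
    · rw [Pi.single_eq_same, if_neg one_ne_zero] at h1
      have h2 : Function.update (Pi.single i 1 : Fin q → ℕ) i (1 - 1) = 0 := by
        funext j
        by_cases hj : j = i
        · rw [hj, Function.update_self]
          rfl
        · rw [Function.update_of_ne hj, Pi.single_eq_of_ne hj]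
          rfl
      rw [h2] at h1
      exact h1
    · intro j _ hj
      rw [Pi.single_eq_of_ne hj, if_pos rfl]
    · intro h
      exact absurd (Finset.mem_univ i) h
  have hev2 : ev Z 0 ξ b = ξ 0 := by
    unfold ev
    rw [Finset.piAntidiag_zero, Finset.sum_singleton]
    have h1 : ∏ i, b i ^ (0 : Fin q → ℕ) i = 1 := by
      refine Finset.prod_eq_one fun i _ => ?_
      rw [Pi.zero_apply, pow_zero]
    rw [h1, one_smul]
  rw [hev2] at hev
  have h0 : ξ 0 ≠ 0 := by
    intro h
    rw [h] at hev
    exact hev (zero_mem _)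
  refine ⟨one k q, quoV Z (ξ 0) hs, ⟨sesV Z (ξ 0) hs h0⟩, ?_, ?_⟩
  · exact Module.finrank_self k
  · have d1 := (sesV Z (ξ 0) hs h0).dim_eq
    have d2 : (one k q).dim = 1 := Module.finrank_self k
    have d3 := h_add Z b
    have d4 := h_add (quoV Z (ξ 0) hs) b
    have d5 : Module.finrank k (LinearMap.range (Z.op b)) ≤
        Module.finrank k (LinearMap.range ((quoV Z (ξ 0) hs).op b)) := by
      let U : LinearMap.range (Z.op b) →ₗ[k] LinearMap.range ((quoV Z (ξ 0) hs).op b) :=
        LinearMap.codRestrict (LinearMap.range ((quoV Z (ξ 0) hs).op b))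
          ((sesV Z (ξ 0) hs h0).g ∘ₗ (LinearMap.range (Z.op b)).subtype) (by
          rintro ⟨_, ⟨v, rfl⟩⟩
          exact ⟨(sesV Z (ξ 0) hs h0).g v,
            (op_hom (sesV Z (ξ 0) hs h0).g (sesV Z (ξ 0) hs h0).hg b v).symm⟩)
      apply LinearMap.finrank_le_finrank_of_injective (f := U)
      rw [injective_iff_map_eq_zero]
      intro v hv
      have h4 : (sesV Z (ξ 0) hs h0).g v.1 = 0 := congrArg Subtype.val hv
      obtain ⟨c, hc⟩ := ((sesV Z (ξ 0) hs h0).exact v.1).1 h4
      have h5 : c • ξ 0 = v.1 := hc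
      by_cases hc0 : c = 0
      · rw [hc0, zero_smul] at h5
        exact Subtype.ext h5.symm
      · exfalso
        apply hev
        have h6 : ξ 0 = c⁻¹ • v.1 := by rw [← h5, smul_smul, inv_mul_cancel₀ hc0, one_smul]
        rw [h6]
        exact Submodule.smul_mem _ _ v.2
    omega

end quo

/-! ### Inflation -/

section infl

variable {k : Type u} [Field k] {r q : ℕ}

/-- inflation along a linear map -/
noncomputable abbrev infl [CharP k 2] (P : (Fin r → k) →ₗ[k] (Fin q → k)) (A : Md k q) : Md k r where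
  V := A.V
  x i := A.op (P (Pi.single i 1))
  comm _ _ v := op_comm A _ _ v
  sq _ v := op_sq A _ v

/-- `op` as a linear map -/
noncomputable def opL (A : Md k q) : (Fin q → k) →ₗ[k] (A.V →ₗ[k] A.V) where
  toFun := A.op
  map_add' := op_add A
  map_smul' := op_smul A

theorem infl_op [CharP k 2] (P : (Fin r → k) →ₗ[k] (Fin q → k)) (A : Md k q) (z : Fin r → k) :
    (infl P A).op z = A.op (P z) := by
  have h1 : z = ∑ i, z i • (Pi.single i 1 : Fin r → k) := by
    conv_lhs => rw [pi_eq_sum_univ z]
    refine Finset.sum_congr rfl fun i _ => ?_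
    congr 1
    funext j
    rw [Pi.single_apply]
    by_cases h : i = j
    · rw [if_pos h, if_pos h.symm]
    · rw [if_neg h, if_neg fun h' => h h'.symm]
  have h2 : A.op (P z) = ∑ i, z i • A.op (P (Pi.single i 1)) := by
    conv_lhs => rw [h1, map_sum]
    change opL A (∑ i, P (z i • (Pi.single i 1 : Fin r → k))) = _
    rw [map_sum]
    refine Finset.sum_congr rfl fun i _ => ?_
    rw [map_smul, map_smul]
    rfl
  rw [h2]
  rfl

theorem infl_h [CharP k 2] (P : (Fin r → k) →ₗ[k] (Fin q → k)) (A : Md k q) (z : Fin r → k) :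
    (infl P A).h z = A.h (P z) := by
  unfold Md.h
  rw [infl_op]
  rfl

theorem proof_infl : S_infl.{u} := by
  classical
  intro k _ _ r L hL
  obtain ⟨U, hU⟩ : ∃ U : Submodule k (Fin r → k), U = Submodule.span k {f | f ∈ L} := ⟨_, rfl⟩
  have hUdim : Module.finrank k U ≤ L.length := by
    have h1 : ({f | f ∈ L} : Set (Fin r → k)) = (L.toFinset : Set (Fin r → k)) := by
      ext f
      rw [List.coe_toFinset]
    rw [hU, h1]
    exact (finrank_span_finset_le_card _).trans (List.toFinset_card_le L)
  obtain ⟨q, hq⟩ : ∃ q : ℕ, q = Module.finrank k ((Fin r → k) ⧸ U) := ⟨_, rfl⟩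
  have hq1 : 1 ≤ q := by
    have h1 := Submodule.finrank_quotient_add_finrank U
    rw [Module.finrank_fin_fun, ← hq] at h1
    omega
  have e : ((Fin r → k) ⧸ U) ≃ₗ[k] (Fin q → k) :=
    LinearEquiv.ofFinrankEq _ _ (by rw [Module.finrank_fin_fun, hq])
  obtain ⟨P, hP⟩ : ∃ P : (Fin r → k) →ₗ[k] (Fin q → k), P = e.toLinearMap ∘ₗ U.mkQ := ⟨_, rfl⟩
  have hPs : Function.Surjective P := by
    rw [hP]
    exact e.surjective.comp (Submodule.mkQ_surjective U)
  have hP0 : ∀ f, P f = 0 ↔ f ∈ U := by
    intro f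
    rw [hP]
    change e (U.mkQ f) = 0 ↔ f ∈ U
    rw [LinearEquiv.map_eq_zero_iff, Submodule.mkQ_apply, Submodule.Quotient.mk_eq_zero]
  have hPL : ∀ f ∈ L, P f = 0 := by
    intro f hf
    rw [hP0, hU]
    exact Submodule.subset_span hf
  refine ⟨q, P, infl P, hq1, hPs, hPL, ?_, ?_, infl_h P, ?_, ?_, ?_⟩
  · intro f hf
    rw [hP0, hU] at hf
    exact hf
  · rintro A B C ⟨S⟩
    exact ⟨⟨S.f, S.g, fun i v => op_hom S.f S.hf _ v, fun i v => op_hom S.g S.hg _ v, S.inj,
      S.surj, S.exact⟩⟩
  · intro A f hf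
    rw [infl_op, hPL f hf, op_zero]
  · intro A hA
    have h1 : ∀ a : Fin q → k, A.op a = 0 := by
      intro a
      have h2 := two_rank_le A a
      rw [hA] at h2
      have h3 : Module.finrank k (LinearMap.range (A.op a)) = 0 := by omega
      rw [Submodule.finrank_eq_zero] at h3
      exact LinearMap.range_eq_bot.1 h3
    have hA' : Module.finrank k A.V = 1 := hA
    have e1 : A.V ≃ₗ[k] k := LinearEquiv.ofFinrankEq _ _ (by rw [hA', Module.finrank_self])
    refine ⟨e1, fun i v => ?_⟩
    change e1 (A.op (P (Pi.single i 1)) v) = 0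
    rw [h1, LinearMap.zero_apply, map_zero]
  · intro W hW
    have hWU : ∀ f ∈ U, W.op f = 0 := by
      have h1 : U ≤ LinearMap.ker (opL W) := by
        rw [hU, Submodule.span_le]
        intro f hf
        exact hW f hf
      intro f hf
      exact h1 hf
    obtain ⟨Q, hQ⟩ := P.exists_rightInverse_of_surjective (LinearMap.range_eq_top.2 hPs)
    refine ⟨infl Q W, LinearEquiv.refl k W.V, fun i v => ?_⟩
    change (infl Q W).op (P (Pi.single i 1)) v = W.x i v
    rw [infl_op]
    have h1 : P (Q (P (Pi.single i 1)) - Pi.single i 1) = 0 := by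
      rw [map_sub]
      have h2 : P (Q (P (Pi.single i 1))) = P (Pi.single i 1) :=
        congrArg (fun T : (Fin q → k) →ₗ[k] (Fin q → k) => T (P (Pi.single i 1))) hQ
      rw [h2, sub_self]
    have h3 := hWU _ ((hP0 _).1 h1)
    have h4 : W.op (Q (P (Pi.single i 1))) = W.op (Pi.single i 1) := by
      have h5 : Q (P (Pi.single i 1)) = (Q (P (Pi.single i 1)) - Pi.single i 1) + Pi.single i 1 := by
        rw [sub_add_cancel]
      rw [h5, op_add, h3, zero_add]
    rw [h4, op_single]

end infl

end Pool.Agent.H331.Kt
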